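import Mathlib

/-! Sums of three prime gaps: sets that are closed under almost all differences (helper178). -/

set_option autoImplicit false

namespace Pool.Agent.Q178.TG

open Finset

open Classical in
/-- the members of `V` below `a` whose difference to `a` is not in `V` -/
noncomputable def bad (V : ℕ → Prop) (q a : ℕ) : Finset ℕ :=
  (Icc 1 (16 * q)).filter (fun b => V b ∧ b < a ∧ ¬ V (a - b))

/-- typical members -/
def Typ (V : ℕ → Prop) (θ : ℝ) (q a : ℕ) : Prop := V a ∧ ((bad V q a).card : ℝ) ≤ θ * q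

open Classical in
/-- the exceptions of the reflection `x ↦ a - x` -/
noncomputable def Er (V : ℕ → Prop) (a : ℕ) : Finset ℕ :=
  (Ico 1 a).filter (fun x => ¬ (V x ↔ V (a - x)))

open Classical in
/-- the exceptions of the translation by `t` -/
noncomputable def Tr (V : ℕ → Prop) (t M : ℕ) : Finset ℕ :=
  (Ico 1 M).filter (fun x => ¬ (V x ↔ V (x + t)))

open Classical in
/-- syndetic sets have many members in every window -/
theorem window_card {V : ℕ → Prop} {L : ℕ}
    (hsyn : ∀ x, ∃ k, V k ∧ x < k ∧ k ≤ x + L) (u w : ℕ) :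
    w / L ≤ ((Ioc u (u + w)).filter V).card := by
  choose f hf1 hf2 hf3 using hsyn
  have h1 : (range (w / L)).card ≤ ((Ioc u (u + w)).filter V).card := by
    refine card_le_card_of_injOn (fun j => f (u + j * L)) ?_ ?_
    · intro j hj
      have hj' : j < w / L := mem_range.1 (mem_coe.1 hj)
      have h2 := hf2 (u + j * L)
      have h3 := hf3 (u + j * L)
      have h4 : (j + 1) * L ≤ w := by
        calc (j + 1) * L ≤ (w / L) * L := Nat.mul_le_mul_right _ hj'
          _ ≤ w := Nat.div_mul_le_self _ _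
      have h5 : (j + 1) * L = j * L + L := by ring
      refine mem_coe.2 (mem_filter.2 ⟨mem_Ioc.2 ⟨?_, ?_⟩, hf1 _⟩)
      · show u < f (u + j * L)
        omega
      · show f (u + j * L) ≤ u + w
        omega
    · intro i _ j _ hij
      have hij' : f (u + i * L) = f (u + j * L) := hij
      have h2 := hf2 (u + i * L)
      have h3 := hf3 (u + i * L)
      have h4 := hf2 (u + j * L)
      have h5 := hf3 (u + j * L)
      rcases lt_trichotomy i j with h | h | h
      · exfalso
        have h6 : (i + 1) * L ≤ j * L := Nat.mul_le_mul_right _ h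
        have h7 : (i + 1) * L = i * L + L := by ring
        omega
      · exact h
      · exfalso
        have h6 : (j + 1) * L ≤ i * L := Nat.mul_le_mul_right _ h
        have h7 : (j + 1) * L = j * L + L := by ring
        omega
  rwa [card_range] at h1

open Classical in
/-- few members are not typical -/
theorem atyp_card {V : ℕ → Prop} {θ : ℝ} (hθ : 0 < θ) {q : ℕ} (hq : 0 < q)
    (hbad : ∑ a ∈ (Icc 1 (16 * q)).filter V, ((bad V q a).card : ℝ) ≤ θ ^ 2 * q ^ 2) :
    (((Icc 1 (16 * q)).filter (fun a => V a ∧ ¬ Typ V θ q a)).card : ℝ) ≤ θ * q := by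
  have hq' : (0 : ℝ) < q := by exact_mod_cast hq
  have h1 : ∑ a ∈ (Icc 1 (16 * q)).filter (fun a => V a ∧ ¬ Typ V θ q a), θ * q ≤
      ∑ a ∈ (Icc 1 (16 * q)).filter V, ((bad V q a).card : ℝ) := by
    calc ∑ a ∈ (Icc 1 (16 * q)).filter (fun a => V a ∧ ¬ Typ V θ q a), θ * q
        ≤ ∑ a ∈ (Icc 1 (16 * q)).filter (fun a => V a ∧ ¬ Typ V θ q a), ((bad V q a).card : ℝ) := by
          apply sum_le_sum
          intro a ha
          have h2 := (mem_filter.1 ha).2
          by_contra h3
          push Not at h3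
          exact h2.2 ⟨h2.1, h3.le⟩
      _ ≤ _ := by
          apply sum_le_sum_of_subset_of_nonneg
          · intro a ha
            rw [mem_filter] at ha ⊢
            exact ⟨ha.1, ha.2.1⟩
          · intro a _ _
            positivity
  rw [sum_const, nsmul_eq_mul] at h1
  have h2 := h1.trans hbad
  have h3 : (θ * q) * (((Icc 1 (16 * q)).filter (fun a => V a ∧ ¬ Typ V θ q a)).card : ℝ) ≤
      (θ * q) * (θ * q) := by nlinarith
  exact le_of_mul_le_mul_left h3 (by positivity)

open Classical in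
theorem refl_card {V : ℕ → Prop} {θ : ℝ} {q a : ℕ} (ha : a ≤ 16 * q) (ht : Typ V θ q a) :
    ((Er V a).card : ℝ) ≤ 2 * θ * q := by
  have h1 : Er V a ⊆ bad V q a ∪ (bad V q a).image (fun x => a - x) := by
    intro x hx
    obtain ⟨h2, h3⟩ := mem_filter.1 hx
    rw [mem_Ico] at h2
    by_cases hV : V x
    · apply mem_union_left
      refine mem_filter.2 ⟨mem_Icc.2 ⟨h2.1, by omega⟩, hV, h2.2, fun h4 => h3 ⟨fun _ => h4, fun _ => hV⟩⟩
    · apply mem_union_right
      have hV' : V (a - x) := by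
        by_contra h4
        exact h3 ⟨fun h => absurd h hV, fun h => absurd h h4⟩
      have e : a - (a - x) = x := by omega
      refine mem_image.2 ⟨a - x, mem_filter.2 ⟨mem_Icc.2 ⟨by omega, by omega⟩, hV', by omega, ?_⟩, e⟩
      rw [e]
      exact hV
  have h2 := (card_le_card h1).trans (card_union_le _ _)
  have h3 : ((bad V q a).image (fun x => a - x)).card ≤ (bad V q a).card := card_image_le
  have h4 : ((Er V a).card : ℝ) ≤ (bad V q a).card + (bad V q a).card := by
    exact_mod_cast h2.trans (by omega)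
  linarith [ht.2]

open Classical in
theorem trans_card {V : ℕ → Prop} {θ : ℝ} {q a t : ℕ} (ha : a + t ≤ 16 * q)
    (h1 : Typ V θ q a) (h2 : Typ V θ q (a + t)) : ((Tr V t a).card : ℝ) ≤ 4 * θ * q := by
  have h3 : Tr V t a ⊆ Er V a ∪ (Er V (a + t)).image (fun x => a - x) := by
    intro x hx
    obtain ⟨h4, h5⟩ := mem_filter.1 hx
    rw [mem_Ico] at h4
    by_cases hE : x ∈ Er V a
    · exact mem_union_left _ hE
    · apply mem_union_right
      have h6 : V x ↔ V (a - x) := by
        by_contra h7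
        exact hE (mem_filter.2 ⟨mem_Ico.2 h4, h7⟩)
      have e : a - (a - x) = x := by omega
      have e' : a + t - (a - x) = x + t := by omega
      refine mem_image.2 ⟨a - x, mem_filter.2 ⟨mem_Ico.2 ⟨by omega, by omega⟩, ?_⟩, e⟩
      rw [e', ← h6]
      exact h5
  have h4 := (card_le_card h3).trans (card_union_le _ _)
  have h5 : ((Er V (a + t)).image (fun x => a - x)).card ≤ (Er V (a + t)).card := card_image_le
  have h6 : ((Tr V t a).card : ℝ) ≤ (Er V a).card + (Er V (a + t)).card := by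
    exact_mod_cast h4.trans (by omega)
  have h7 := refl_card (by omega) h1
  have h8 := refl_card ha h2
  linarith

open Classical in
theorem Tr_mono {V : ℕ → Prop} {t M M' : ℕ} (h : M ≤ M') : Tr V t M ⊆ Tr V t M' := by
  intro x hx
  obtain ⟨h1, h2⟩ := mem_filter.1 hx
  rw [mem_Ico] at h1
  exact mem_filter.2 ⟨mem_Ico.2 ⟨h1.1, by omega⟩, h2⟩

/-- the good translations -/
def Per (V : ℕ → Prop) (θ : ℝ) (q t : ℕ) : Prop :=
  1 ≤ t ∧ t ≤ 2 * q ∧ ((Tr V t (12 * q)).card : ℝ) ≤ 4 * θ * q

theorem per_of_typ {V : ℕ → Prop} {θ : ℝ} {q a t : ℕ} (ha : 12 * q ≤ a) (ht : 1 ≤ t)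
    (ht2 : t ≤ 2 * q) (hat : a + t ≤ 16 * q) (h1 : Typ V θ q a) (h2 : Typ V θ q (a + t)) :
    Per V θ q t := by
  refine ⟨ht, ht2, ?_⟩
  have h3 := trans_card hat h1 h2
  have h4 : ((Tr V t (12 * q)).card : ℝ) ≤ (Tr V t a).card := by
    exact_mod_cast card_le_card (Tr_mono ha)
  linarith

open Classical in
/-- there is a typical member in every window -/
theorem exists_typ {V : ℕ → Prop} {θ : ℝ} {q L : ℕ}
    (hsyn : ∀ x, ∃ k, V k ∧ x < k ∧ k ≤ x + L)
    (hat : (((Icc 1 (16 * q)).filter (fun a => V a ∧ ¬ Typ V θ q a)).card : ℝ) ≤ θ * q)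
    (u w : ℕ) (hw : u + w ≤ 16 * q) (hlt : θ * q < ((w / L : ℕ) : ℝ)) :
    ∃ a, u < a ∧ a ≤ u + w ∧ Typ V θ q a := by
  by_contra hcon
  push Not at hcon
  have h1 := window_card hsyn u w
  have h2 : ((Ioc u (u + w)).filter V).card ≤
      ((Icc 1 (16 * q)).filter (fun a => V a ∧ ¬ Typ V θ q a)).card := by
    apply card_le_card
    intro a ha
    obtain ⟨h3, h4⟩ := mem_filter.1 ha
    rw [mem_Ioc] at h3
    exact mem_filter.2 ⟨mem_Icc.2 ⟨by omega, by omega⟩, h4, hcon a h3.1 h3.2⟩
  have h3 : ((w / L : ℕ) : ℝ) ≤ (((Icc 1 (16 * q)).filter (fun a => V a ∧ ¬ Typ V θ q a)).card : ℝ) := by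
    exact_mod_cast h1.trans h2
  linarith

open Classical in
/-- **dichotomy** -/
theorem per_dich {V : ℕ → Prop} {θ : ℝ} {q L : ℕ} (hθ : 0 < θ)
    (hsyn : ∀ x, ∃ k, V k ∧ x < k ∧ k ≤ x + L)
    (hat : (((Icc 1 (16 * q)).filter (fun a => V a ∧ ¬ Typ V θ q a)).card : ℝ) ≤ θ * q)
    (hlarge : 14 * θ * q < (((q - 1) / L : ℕ) : ℝ)) {t : ℕ} (ht : 1 ≤ t) (ht2 : t ≤ 2 * q)
    (h8 : ((Tr V t (8 * q)).card : ℝ) ≤ 8 * θ * q) : Per V θ q t := by
  have hq0 : (0 : ℝ) ≤ θ * q := by positivity
  have hqL : (((q - 1) / L : ℕ) : ℝ) ≤ ((q / L : ℕ) : ℝ) := by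
    exact_mod_cast Nat.div_le_div_right (Nat.sub_le _ _)
  obtain ⟨a0, ha1, ha2, ha3⟩ := exists_typ hsyn hat (15 * q) q (by omega) (by linarith)
  -- the members of the window
  by_contra hcon
  set S := (Ioc (14 * q) (14 * q + (q - 1))).filter V with hS
  have hw : (q - 1) / L ≤ S.card := window_card hsyn (14 * q) (q - 1)
  have hsub : S ⊆ (((Er V a0) ∪ (Er V a0).image (fun x => x + t)) ∪
      (Tr V t (8 * q)).image (fun y => a0 - y)) ∪
      (((Icc 1 (16 * q)).filter (fun a => V a ∧ ¬ Typ V θ q a)) ∪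
      ((Icc 1 (16 * q)).filter (fun a => V a ∧ ¬ Typ V θ q a)).image (fun x => x + t)) := by
    intro x hx
    obtain ⟨h1, h2⟩ := mem_filter.1 hx
    rw [mem_Ioc] at h1
    by_contra hx'
    simp only [mem_union, not_or] at hx'
    obtain ⟨⟨⟨k1, k2⟩, k3⟩, k4, k5⟩ := hx'
    have hxV : V x ↔ V (a0 - x) := by
      by_contra h
      exact k1 (mem_filter.2 ⟨mem_Ico.2 ⟨by omega, by omega⟩, h⟩)
    have hxt : V (x - t) ↔ V (a0 - (x - t)) := by
      by_contra h
      apply k2
      refine mem_image.2 ⟨x - t, mem_filter.2 ⟨mem_Ico.2 ⟨by omega, by omega⟩, h⟩, by omega⟩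
    have hyt : V (a0 - x) ↔ V (a0 - x + t) := by
      by_contra h
      apply k3
      refine mem_image.2 ⟨a0 - x, mem_filter.2 ⟨mem_Ico.2 ⟨by omega, by omega⟩, h⟩, by omega⟩
    have e : a0 - (x - t) = a0 - x + t := by omega
    rw [e, ← hyt, ← hxV] at hxt
    have hxt' : V (x - t) := hxt.2 h2
    have hT1 : Typ V θ q x := by
      by_contra h
      exact k4 (mem_filter.2 ⟨mem_Icc.2 ⟨by omega, by omega⟩, h2, h⟩)
    have hT2 : Typ V θ q (x - t) := by
      by_contra h
      apply k5
      exact mem_image.2 ⟨x - t, mem_filter.2 ⟨mem_Icc.2 ⟨by omega, by omega⟩, hxt', h⟩, by omega⟩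
    apply hcon
    have e2 : x - t + t = x := by omega
    exact per_of_typ (a := x - t) (by omega) ht ht2 (by omega) hT2 (by rw [e2]; exact hT1)
  have hc := (card_le_card hsub).trans (card_union_le _ _)
  have hc1 := card_union_le ((Er V a0) ∪ (Er V a0).image (fun x => x + t))
      ((Tr V t (8 * q)).image (fun y => a0 - y))
  have hc2 := card_union_le (Er V a0) ((Er V a0).image (fun x => x + t))
  have hc3 := card_union_le ((Icc 1 (16 * q)).filter (fun a => V a ∧ ¬ Typ V θ q a))
      (((Icc 1 (16 * q)).filter (fun a => V a ∧ ¬ Typ V θ q a)).image (fun x => x + t))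
  have i1 : ((Er V a0).image (fun x => x + t)).card ≤ (Er V a0).card := card_image_le
  have i2 : ((Tr V t (8 * q)).image (fun y => a0 - y)).card ≤ (Tr V t (8 * q)).card := card_image_le
  have i3 : (((Icc 1 (16 * q)).filter (fun a => V a ∧ ¬ Typ V θ q a)).image (fun x => x + t)).card ≤
      ((Icc 1 (16 * q)).filter (fun a => V a ∧ ¬ Typ V θ q a)).card := card_image_le
  have hE := refl_card (V := V) (θ := θ) (q := q) (a := a0) (by omega) ha3
  have htot : (q - 1) / L ≤ 2 * (Er V a0).card + (Tr V t (8 * q)).card +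
      2 * ((Icc 1 (16 * q)).filter (fun a => V a ∧ ¬ Typ V θ q a)).card := by
    refine hw.trans ?_
    omega
  have htot' : (((q - 1) / L : ℕ) : ℝ) ≤ 2 * (Er V a0).card + (Tr V t (8 * q)).card +
      2 * ((Icc 1 (16 * q)).filter (fun a => V a ∧ ¬ Typ V θ q a)).card := by
    exact_mod_cast htot
  linarith

/-- the good translations are closed under differences -/
theorem per_sub {V : ℕ → Prop} {θ : ℝ} {q : ℕ}
    (hdich : ∀ t, 1 ≤ t → t ≤ 2 * q → ((Tr V t (8 * q)).card : ℝ) ≤ 8 * θ * q → Per V θ q t)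
    {t t' : ℕ} (h1 : Per V θ q t) (h2 : Per V θ q t') (hlt : t' < t) : Per V θ q (t - t') := by
  classical
  obtain ⟨a1, a2, a3⟩ := h1
  obtain ⟨b1, b2, b3⟩ := h2
  refine hdich _ (by omega) (by omega) ?_
  have hsub : Tr V (t - t') (8 * q) ⊆ Tr V t (12 * q) ∪
      (Tr V t' (12 * q)).image (fun z => z - (t - t')) := by
    intro x hx
    obtain ⟨h1, h2⟩ := mem_filter.1 hx
    rw [mem_Ico] at h1
    by_contra hx'
    simp only [mem_union, not_or] at hx'
    obtain ⟨k1, k2⟩ := hx'
    have c1 : V x ↔ V (x + t) := by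
      by_contra h
      exact k1 (mem_filter.2 ⟨mem_Ico.2 ⟨by omega, by omega⟩, h⟩)
    have c2 : V (x + (t - t')) ↔ V (x + (t - t') + t') := by
      by_contra h
      apply k2
      exact mem_image.2 ⟨x + (t - t'), mem_filter.2 ⟨mem_Ico.2 ⟨by omega, by omega⟩, h⟩, by omega⟩
    have e : x + (t - t') + t' = x + t := by omega
    rw [e] at c2
    exact h2 (c1.trans c2.symm)
  have hc := (card_le_card hsub).trans (card_union_le _ _)
  have i1 : ((Tr V t' (12 * q)).image (fun z => z - (t - t'))).card ≤ (Tr V t' (12 * q)).card :=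
    card_image_le
  have hc' : ((Tr V (t - t') (8 * q)).card : ℝ) ≤ (Tr V t (12 * q)).card + (Tr V t' (12 * q)).card := by
    exact_mod_cast hc.trans (by omega)
  linarith

/-- the good translations are closed under sums -/
theorem per_add {V : ℕ → Prop} {θ : ℝ} {q : ℕ}
    (hdich : ∀ t, 1 ≤ t → t ≤ 2 * q → ((Tr V t (8 * q)).card : ℝ) ≤ 8 * θ * q → Per V θ q t)
    {t t' : ℕ} (h1 : Per V θ q t) (h2 : Per V θ q t') (hle : t + t' ≤ 2 * q) :
    Per V θ q (t + t') := by
  classical
  obtain ⟨a1, a2, a3⟩ := h1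
  obtain ⟨b1, b2, b3⟩ := h2
  refine hdich _ (by omega) (by omega) ?_
  have hsub : Tr V (t + t') (8 * q) ⊆ Tr V t (12 * q) ∪
      (Tr V t' (12 * q)).image (fun z => z - t) := by
    intro x hx
    obtain ⟨h1, h2⟩ := mem_filter.1 hx
    rw [mem_Ico] at h1
    by_contra hx'
    simp only [mem_union, not_or] at hx'
    obtain ⟨k1, k2⟩ := hx'
    have c1 : V x ↔ V (x + t) := by
      by_contra h
      exact k1 (mem_filter.2 ⟨mem_Ico.2 ⟨by omega, by omega⟩, h⟩)
    have c2 : V (x + t) ↔ V (x + t + t') := by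
      by_contra h
      apply k2
      exact mem_image.2 ⟨x + t, mem_filter.2 ⟨mem_Ico.2 ⟨by omega, by omega⟩, h⟩, by omega⟩
    rw [add_assoc] at c2
    exact h2 (c1.trans c2)
  have hc := (card_le_card hsub).trans (card_union_le _ _)
  have i1 : ((Tr V t' (12 * q)).image (fun z => z - t)).card ≤ (Tr V t' (12 * q)).card :=
    card_image_le
  have hc' : ((Tr V (t + t') (8 * q)).card : ℝ) ≤ (Tr V t (12 * q)).card + (Tr V t' (12 * q)).card := by
    exact_mod_cast hc.trans (by omega)
  linarith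

/-- the good translations are the multiples of a number -/
theorem per_struct {V : ℕ → Prop} {θ : ℝ} {q L : ℕ}
    (hdich : ∀ t, 1 ≤ t → t ≤ 2 * q → ((Tr V t (8 * q)).card : ℝ) ≤ 8 * θ * q → Per V θ q t)
    (hex : ∃ t, t ≤ 2 * L ∧ Per V θ q t) :
    ∃ d, 1 ≤ d ∧ d ≤ 2 * L ∧ ∀ t, 1 ≤ t → t ≤ 2 * q → (Per V θ q t ↔ d ∣ t) := by
  classical
  have hex' : ∃ t, Per V θ q t := ⟨_, hex.choose_spec.2⟩
  set d := Nat.find hex' with hd
  have hdP : Per V θ q d := Nat.find_spec hex'
  have hmin : ∀ t, Per V θ q t → d ≤ t := fun t ht => Nat.find_min' hex' ht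
  refine ⟨d, hdP.1, ?_, fun t ht1 ht2 => ⟨?_, ?_⟩⟩
  · obtain ⟨t, h1, h2⟩ := hex
    exact (hmin t h2).trans h1
  · intro hPt
    -- Euclid
    have key : ∀ n, ∀ t, t ≤ n → Per V θ q t → d ∣ t := by
      intro n
      induction n with
      | zero =>
        intro t ht hP
        have := hP.1
        omega
      | succ n ih =>
        intro t ht hP
        rcases Nat.lt_or_ge d t with h | h
        · have h1 := per_sub hdich hP hdP h
          have h2 := ih (t - d) (by have := hdP.1; omega) h1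
          have h3 : t = (t - d) + d := by omega
          rw [h3]
          exact dvd_add h2 dvd_rfl
        · have h1 := hmin t hP
          have h2 : t = d := by omega
          rw [h2]
    exact key t t le_rfl hPt
  · rintro ⟨j, rfl⟩
    have key : ∀ j, 1 ≤ j → d * j ≤ 2 * q → Per V θ q (d * j) := by
      intro j
      induction j with
      | zero => intro h; omega
      | succ j ih =>
        intro _ h2
        rcases Nat.eq_zero_or_pos j with h | h
        · subst h
          simpa using hdP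
        · have h3 : d * (j + 1) = d * j + d := by ring
          rw [h3] at h2 ⊢
          exact per_add hdich (ih h (by omega)) hdP h2
    refine key j ?_ ht2
    rcases Nat.eq_zero_or_pos j with h | h
    · subst h; omega
    · exact h

end Pool.Agent.Q178.TG
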