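import Mathlib
import Pool.Agent.Q178.TG.Core

/-! Sums of three prime gaps: sets that are closed under almost all differences, structure
(helper178). -/

set_option autoImplicit false

namespace Pool.Agent.Q178.TG

open Finset

open Classical in
/-- the pairs of members whose difference is not in `V` -/
noncomputable def badPairs (V : ℕ → Prop) (q : ℕ) : Finset (ℕ × ℕ) :=
  ((Icc 1 (16 * q)) ×ˢ (Icc 1 (16 * q))).filter
    (fun z => V z.1 ∧ V z.2 ∧ z.2 < z.1 ∧ ¬ V (z.1 - z.2))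

open Classical in
theorem sum_bad (V : ℕ → Prop) (q : ℕ) :
    ∑ a ∈ (Icc 1 (16 * q)).filter V, ((bad V q a).card : ℝ) = ((badPairs V q).card : ℝ) := by
  have h1 : badPairs V q = ((Icc 1 (16 * q)).filter V).biUnion
      (fun a => (bad V q a).image (fun b => (a, b))) := by
    ext ⟨a, b⟩
    simp only [badPairs, bad, mem_filter, mem_product, mem_biUnion, mem_image, Prod.mk.injEq]
    constructor
    · rintro ⟨⟨h1, h2⟩, h3, h4, h5, h6⟩
      exact ⟨a, ⟨h1, h3⟩, b, ⟨h2, h4, h5, h6⟩, rfl, rfl⟩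
    · rintro ⟨a', ⟨h1, h2⟩, b', ⟨h3, h4, h5, h6⟩, rfl, rfl⟩
      exact ⟨⟨h1, h3⟩, h2, h4, h5, h6⟩
  rw [h1, card_biUnion]
  · push_cast
    apply sum_congr rfl
    intro a _
    rw [card_image_of_injective _ (fun b b' h => (Prod.mk.injEq _ _ _ _ ▸ h : a = a ∧ b = b').2)]
  · intro a _ a' _ hne
    rw [Function.onFun, disjoint_left]
    rintro z hz hz'
    obtain ⟨b, _, rfl⟩ := mem_image.1 hz
    obtain ⟨b', _, h⟩ := mem_image.1 hz'
    rw [Prod.mk.injEq] at h
    exact hne h.1.symm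

open Classical in
/-- two typical members of small distance -/
theorem exists_per {V : ℕ → Prop} {θ : ℝ} {q L : ℕ} (hL : 1 ≤ L)
    (hsyn : ∀ x, ∃ k, V k ∧ x < k ∧ k ≤ x + L)
    (hat : (((Icc 1 (16 * q)).filter (fun a => V a ∧ ¬ Typ V θ q a)).card : ℝ) ≤ θ * q)
    (hlarge : θ * q + ((q / L + 1 : ℕ) : ℝ) < (((2 * q) / L : ℕ) : ℝ)) :
    ∃ t, t ≤ 2 * L ∧ Per V θ q t := by
  set T := (Ioc (12 * q) (12 * q + 2 * q)).filter (Typ V θ q) with hT
  have h1 := window_card hsyn (12 * q) (2 * q)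
  have h2 : ((Ioc (12 * q) (12 * q + 2 * q)).filter V).card ≤ T.card +
      ((Icc 1 (16 * q)).filter (fun a => V a ∧ ¬ Typ V θ q a)).card := by
    refine (card_le_card ?_).trans (card_union_le _ _)
    intro a ha
    obtain ⟨h3, h4⟩ := mem_filter.1 ha
    rw [mem_Ioc] at h3
    by_cases h : Typ V θ q a
    · exact mem_union_left _ (mem_filter.2 ⟨mem_Ioc.2 h3, h⟩)
    · exact mem_union_right _ (mem_filter.2 ⟨mem_Icc.2 ⟨by omega, by omega⟩, h4, h⟩)
  have h3 : (((2 * q) / L : ℕ) : ℝ) ≤ T.card +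
      ((Icc 1 (16 * q)).filter (fun a => V a ∧ ¬ Typ V θ q a)).card := by
    exact_mod_cast h1.trans h2
  have h4 : ((q / L + 1 : ℕ) : ℝ) < T.card := by linarith
  have h5 : q / L + 1 < T.card := by exact_mod_cast h4
  have h6 : ∀ a ∈ T, (a - 12 * q) / (2 * L) ∈ range (q / L + 1) := by
    intro a ha
    have h7 := mem_Ioc.1 (mem_filter.1 ha).1
    rw [mem_range]
    have h8 : (a - 12 * q) / (2 * L) ≤ (2 * q) / (2 * L) := Nat.div_le_div_right (by omega)
    rw [Nat.mul_div_mul_left _ _ (by norm_num : 0 < 2)] at h8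
    omega
  obtain ⟨a, ha, a', ha', hne, heq⟩ := exists_ne_map_eq_of_card_lt_of_maps_to
    (s := T) (t := range (q / L + 1)) (f := fun a => (a - 12 * q) / (2 * L))
    (by rw [card_range]; exact h5) h6
  have heq' : (a - 12 * q) / (2 * L) = (a' - 12 * q) / (2 * L) := heq
  obtain ⟨k1, k2⟩ := mem_filter.1 ha
  obtain ⟨k3, k4⟩ := mem_filter.1 ha'
  rw [mem_Ioc] at k1 k3
  have hL2 : 0 < 2 * L := by omega
  have m1 := Nat.div_add_mod (a - 12 * q) (2 * L)
  have m2 := Nat.mod_lt (a - 12 * q) hL2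
  have m3 := Nat.div_add_mod (a' - 12 * q) (2 * L)
  have m4 := Nat.mod_lt (a' - 12 * q) hL2
  rw [← heq'] at m3
  rcases Nat.lt_or_gt_of_ne hne with h | h
  · refine ⟨a' - a, by omega, ?_⟩
    have e : a + (a' - a) = a' := by omega
    exact per_of_typ (a := a) (by omega) (by omega) (by omega) (by omega) k2 (by rw [e]; exact k4)
  · refine ⟨a - a', by omega, ?_⟩
    have e : a' + (a - a') = a := by omega
    exact per_of_typ (a := a') (by omega) (by omega) (by omega) (by omega) k4 (by rw [e]; exact k2)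

open Classical in
/-- a member with few exceptions among its translates by multiples of `d` -/
theorem exists_base {V : ℕ → Prop} {θ : ℝ} {q L d : ℕ} (hd : 1 ≤ d)
    (hsyn : ∀ x, ∃ k, V k ∧ x < k ∧ k ≤ x + L)
    (hper : ∀ t, 1 ≤ t → t ≤ 2 * q → d ∣ t → Per V θ q t) (hqL : 1 ≤ q / L) :
    ∃ x, V x ∧ 1 ≤ x ∧ x ≤ q ∧
      ((((Icc 1 (2 * q / d)).filter (fun j => ¬ V (x + d * j))).card : ℝ)) * ((q / L : ℕ) : ℝ) ≤
        4 * θ * q * ((2 * q / d : ℕ) : ℝ) := by
  set A := (Ioc 0 (0 + q)).filter V with hA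
  have hAc : q / L ≤ A.card := window_card hsyn 0 q
  have hAne : A.Nonempty := by
    rw [← card_pos]; omega
  set g : ℕ → ℝ := fun x => (((Icc 1 (2 * q / d)).filter (fun j => ¬ V (x + d * j))).card : ℝ) with hg
  obtain ⟨x, hx, hmin⟩ := exists_min_image A g hAne
  obtain ⟨h1, h2⟩ := mem_filter.1 hx
  rw [mem_Ioc] at h1
  refine ⟨x, h2, by omega, by omega, ?_⟩
  have h3 : (A.card : ℝ) * g x ≤ ∑ y ∈ A, g y := by
    rw [← nsmul_eq_mul]
    exact card_nsmul_le_sum _ _ _ hmin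
  have h4 : ∑ y ∈ A, g y ≤ ∑ j ∈ Icc 1 (2 * q / d), ((Tr V (d * j) (12 * q)).card : ℝ) := by
    have e1 : ∀ y ∈ A, g y = ∑ j ∈ Icc 1 (2 * q / d), (if ¬ V (y + d * j) then (1 : ℝ) else 0) := by
      intro y _
      simp only [hg, card_filter]
      push_cast
      rfl
    rw [sum_congr rfl e1, sum_comm]
    apply sum_le_sum
    intro j hj
    rw [← sum_filter, sum_const, nsmul_eq_mul, mul_one, Nat.cast_le]
    apply card_le_card
    intro y hy
    obtain ⟨h5, h6⟩ := mem_filter.1 hy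
    obtain ⟨h7, h8⟩ := mem_filter.1 h5
    rw [mem_Ioc] at h7
    exact mem_filter.2 ⟨mem_Ico.2 ⟨by omega, by omega⟩, fun h => h6 (h.1 h8)⟩
  have h5 : ∑ j ∈ Icc 1 (2 * q / d), ((Tr V (d * j) (12 * q)).card : ℝ) ≤
      ∑ j ∈ Icc 1 (2 * q / d), 4 * θ * q := by
    apply sum_le_sum
    intro j hj
    rw [mem_Icc] at hj
    have h6 : d * j ≤ 2 * q := by
      calc d * j ≤ d * (2 * q / d) := Nat.mul_le_mul_left _ hj.2
        _ ≤ 2 * q := Nat.mul_div_le _ _
    have h7 : 1 ≤ d * j := Nat.mul_pos hd hj.1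
    exact (hper _ h7 h6 (dvd_mul_right _ _)).2.2
  rw [sum_const, nsmul_eq_mul, Nat.card_Icc, Nat.add_sub_cancel] at h5
  have h6 : ((q / L : ℕ) : ℝ) ≤ A.card := by exact_mod_cast hAc
  have h7 : 0 ≤ g x := by simp only [hg]; positivity
  calc g x * ((q / L : ℕ) : ℝ) ≤ g x * A.card := mul_le_mul_of_nonneg_left h6 h7
    _ = A.card * g x := mul_comm _ _
    _ ≤ ((2 * q / d : ℕ) : ℝ) * (4 * θ * q) := (h3.trans h4).trans h5
    _ = _ := by ring

open Classical in
/-- almost all multiples of `d` are in `V` -/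
theorem mult_count {V : ℕ → Prop} {q d x : ℕ} {b : ℕ} (hd : 1 ≤ d) (hx1 : 1 ≤ x) (hxq : x ≤ q)
    (hb : ((Icc 1 (2 * q / d)).filter (fun j => ¬ V (x + d * j))).card ≤ b) :
    ((Icc 1 (q / d)).filter (fun j => ¬ V (d * j))).card * (q / d - 2 * b) ≤
      (badPairs V q).card := by
  set N := q / d with hN
  set Bj := (Icc 1 N).filter (fun j => ¬ V (d * j)) with hBj
  have h2N : 2 * N ≤ 2 * q / d := by
    rw [Nat.le_div_iff_mul_le (by omega)]
    have := Nat.div_mul_le_self q d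
    rw [← hN] at this
    nlinarith
  have hdN : d * N ≤ q := Nat.mul_div_le _ _
  -- for every bad multiple
  have key : ∀ i ∈ Bj, N - 2 * b ≤ ((Icc 1 N).filter
      (fun j => V (x + d * j) ∧ V (x + d * (j + i)))).card := by
    intro i hi
    obtain ⟨h1, h2⟩ := mem_filter.1 hi
    rw [mem_Icc] at h1
    have h3 : (Icc 1 N) ⊆ ((Icc 1 N).filter (fun j => V (x + d * j) ∧ V (x + d * (j + i)))) ∪
        (((Icc 1 (2 * q / d)).filter (fun j => ¬ V (x + d * j))) ∪
          (((Icc 1 (2 * q / d)).filter (fun j => ¬ V (x + d * j))).image (fun j => j - i))) := by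
      intro j hj
      have hj' := mem_Icc.1 hj
      by_contra hcon
      simp only [mem_union, not_or] at hcon
      obtain ⟨k1, k2, k3⟩ := hcon
      have c1 : V (x + d * j) := by
        by_contra h
        exact k2 (mem_filter.2 ⟨mem_Icc.2 ⟨hj'.1, by omega⟩, h⟩)
      have c2 : V (x + d * (j + i)) := by
        by_contra h
        apply k3
        exact mem_image.2 ⟨j + i, mem_filter.2 ⟨mem_Icc.2 ⟨by omega, by omega⟩, h⟩, by omega⟩
      exact k1 (mem_filter.2 ⟨hj, c1, c2⟩)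
    have h4 := (card_le_card h3).trans (card_union_le _ _)
    have h5 := card_union_le ((Icc 1 (2 * q / d)).filter (fun j => ¬ V (x + d * j)))
      (((Icc 1 (2 * q / d)).filter (fun j => ¬ V (x + d * j))).image (fun j => j - i))
    have h6 : (((Icc 1 (2 * q / d)).filter (fun j => ¬ V (x + d * j))).image (fun j => j - i)).card ≤
      ((Icc 1 (2 * q / d)).filter (fun j => ¬ V (x + d * j))).card := card_image_le
    rw [Nat.card_Icc] at h4
    omega
  have h1 : Bj.card * (N - 2 * b) ≤ ∑ i ∈ Bj, ((Icc 1 N).filter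
      (fun j => V (x + d * j) ∧ V (x + d * (j + i)))).card := by
    rw [← smul_eq_mul]
    exact card_nsmul_le_sum _ _ _ key
  refine h1.trans ?_
  have h2 : ∑ i ∈ Bj, ((Icc 1 N).filter (fun j => V (x + d * j) ∧ V (x + d * (j + i)))).card =
      (Bj.sigma (fun i => (Icc 1 N).filter (fun j => V (x + d * j) ∧ V (x + d * (j + i))))).card := by
    rw [card_sigma]
  rw [h2]
  refine card_le_card_of_injOn (fun z => (x + d * (z.2 + z.1), x + d * z.2)) ?_ ?_
  · rintro ⟨i, j⟩ hz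
    rw [mem_coe, mem_sigma] at hz
    obtain ⟨h3, h4⟩ := hz
    obtain ⟨h5, h6⟩ := mem_filter.1 h3
    obtain ⟨h7, h8, h9⟩ := mem_filter.1 h4
    rw [mem_Icc] at h5 h7
    have h5a : 1 ≤ i := h5.1
    have h5b : i ≤ N := h5.2
    have h7a : 1 ≤ j := h7.1
    have h7b : j ≤ N := h7.2
    have m1 : d * (j + i) ≤ d * N + d * N := by nlinarith
    have m2 : d * j ≤ d * N := Nat.mul_le_mul_left _ h7b
    have m3 : d * (j + i) = d * j + d * i := by ring
    have m4 : 1 ≤ d * i := Nat.mul_pos hd h5a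
    refine mem_coe.2 (mem_filter.2 ⟨mem_product.2 ⟨mem_Icc.2 ⟨?_, ?_⟩, mem_Icc.2 ⟨?_, ?_⟩⟩,
      h9, h8, ?_, ?_⟩)
    · show 1 ≤ x + d * (j + i)
      omega
    · show x + d * (j + i) ≤ 16 * q
      omega
    · show 1 ≤ x + d * j
      omega
    · show x + d * j ≤ 16 * q
      omega
    · show x + d * j < x + d * (j + i)
      omega
    · show ¬ V (x + d * (j + i) - (x + d * j))
      have e : x + d * (j + i) - (x + d * j) = d * i := by omega
      rw [e]
      exact h6
  · rintro ⟨i, j⟩ _ ⟨i', j'⟩ _ h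
    rw [Prod.mk.injEq] at h
    obtain ⟨h3, h4⟩ := h
    have h3' : x + d * (j + i) = x + d * (j' + i') := h3
    have h4' : x + d * j = x + d * j' := h4
    have h5 : j = j' := Nat.eq_of_mul_eq_mul_left hd (by omega)
    have h6 : j + i = j' + i' := Nat.eq_of_mul_eq_mul_left hd (by omega)
    have h7 : i = i' := by omega
    subst h5 h7
    rfl

open Classical in
/-- few members up to `q` are not multiples of `d` -/
theorem nonmult_count {V : ℕ → Prop} {θ : ℝ} {q L d : ℕ} (hθ : 0 < θ)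
    (hsyn : ∀ x, ∃ k, V k ∧ x < k ∧ k ≤ x + L)
    (hat : (((Icc 1 (16 * q)).filter (fun a => V a ∧ ¬ Typ V θ q a)).card : ℝ) ≤ θ * q)
    (hlarge : θ * q < (((q - 1) / L : ℕ) : ℝ))
    (hper : ∀ t, Per V θ q t → d ∣ t) :
    (((Icc 1 q).filter (fun x => V x ∧ ¬ d ∣ x)).card : ℝ) ≤ 2 * θ * q := by
  obtain ⟨a0, ha1, ha2, ha3⟩ := exists_typ hsyn hat (15 * q + 1) (q - 1) (by
    have : 0 < (q - 1) / L := by
      have h1 : (0 : ℝ) < (((q - 1) / L : ℕ) : ℝ) := lt_of_le_of_lt (by positivity) hlarge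
      exact_mod_cast h1
    have : 0 < q - 1 := by
      by_contra h
      have h2 : q - 1 = 0 := by omega
      rw [h2] at this
      simp at this
    omega) hlarge
  have hsub : (Icc 1 q).filter (fun x => V x ∧ ¬ d ∣ x) ⊆ bad V q a0 ∪
      ((Icc 1 (16 * q)).filter (fun a => V a ∧ ¬ Typ V θ q a)).image (fun z => a0 - z) := by
    intro x hx
    obtain ⟨h1, h2, h3⟩ := mem_filter.1 hx
    rw [mem_Icc] at h1
    by_contra hcon
    simp only [mem_union, not_or] at hcon
    obtain ⟨k1, k2⟩ := hcon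
    have c1 : V (a0 - x) := by
      by_contra h
      exact k1 (mem_filter.2 ⟨mem_Icc.2 ⟨by omega, by omega⟩, h2, by omega, h⟩)
    have c2 : Typ V θ q (a0 - x) := by
      by_contra h
      apply k2
      exact mem_image.2 ⟨a0 - x, mem_filter.2 ⟨mem_Icc.2 ⟨by omega, by omega⟩, c1, h⟩, by omega⟩
    apply h3
    apply hper
    have e : a0 - x + x = a0 := by omega
    exact per_of_typ (a := a0 - x) (by omega) h1.1 (by omega) (by omega) c2 (by rw [e]; exact ha3)
  have hc := (card_le_card hsub).trans (card_union_le _ _)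
  have i1 : (((Icc 1 (16 * q)).filter (fun a => V a ∧ ¬ Typ V θ q a)).image
    (fun z => a0 - z)).card ≤ ((Icc 1 (16 * q)).filter (fun a => V a ∧ ¬ Typ V θ q a)).card :=
    card_image_le
  have hc' : (((Icc 1 q).filter (fun x => V x ∧ ¬ d ∣ x)).card : ℝ) ≤ (bad V q a0).card +
      (((Icc 1 (16 * q)).filter (fun a => V a ∧ ¬ Typ V θ q a)).card : ℝ) := by
    exact_mod_cast hc.trans (by omega)
  have := ha3.2
  linarith

end Pool.Agent.Q178.TG
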