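import Mathlib
import Pool.Agent.Q178.TG.Core2

/-! Sums of three prime gaps: sets that are closed under almost all differences, final structure
(helper178). -/

set_option autoImplicit false

namespace Pool.Agent.Q178.TG

open Finset

/-- the property of four classes -/
def Four (V : ℕ → Prop) (R : ℕ) : Prop := ∀ X : Fin 4 → Fin R → ℕ,
  Function.Injective (fun x : Fin 4 × Fin R => X x.1 x.2) →
    ∃ g g' i i', g ≠ g' ∧ X g i < X g' i' ∧ V (X g' i' - X g i)

open Classical in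
/-- `d` is at most three -/
theorem d_le_three {V : ℕ → Prop} {R q d U : ℕ} (hP4 : Four V R) (hd : 4 ≤ d)
    (hU : d * U * (4 * R) + 3 ≤ q)
    (hlt : (4 * R) ^ 2 * ((Icc 1 q).filter (fun x => V x ∧ ¬ d ∣ x)).card < U) : False := by
  set X : ℕ → Fin 4 × Fin R → ℕ := fun u z => (z.1 : ℕ) + d * u * ((z.1 : ℕ) + 4 * (z.2 : ℕ)) with hX
  have hinj : ∀ u, 1 ≤ u → Function.Injective (X u) := by
    intro u hu z z' h
    have h1 : (z.1 : ℕ) + d * u * ((z.1 : ℕ) + 4 * (z.2 : ℕ)) =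
      (z'.1 : ℕ) + d * u * ((z'.1 : ℕ) + 4 * (z'.2 : ℕ)) := h
    have hg := z.1.isLt
    have hg' := z'.1.isLt
    have h2 : (z.1 : ℕ) = z'.1 := by
      have h3 := congrArg (· % d) h1
      simp only [mul_assoc, Nat.add_mul_mod_self_left] at h3
      rwa [Nat.mod_eq_of_lt (by omega), Nat.mod_eq_of_lt (by omega)] at h3
    rw [h2] at h1
    have h3 : d * u * ((z'.1 : ℕ) + 4 * (z.2 : ℕ)) = d * u * ((z'.1 : ℕ) + 4 * (z'.2 : ℕ)) := by omega
    have h4 := Nat.eq_of_mul_eq_mul_left (Nat.mul_pos (by omega) hu) h3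
    have h5 : (z.2 : ℕ) = z'.2 := by omega
    exact Prod.ext (Fin.ext h2) (Fin.ext h5)
  have hex : ∀ u, ∃ z : (Fin 4 × Fin R) × (Fin 4 × Fin R), 1 ≤ u → z.1.1 ≠ z.2.1 ∧
      X u z.1 < X u z.2 ∧ V (X u z.2 - X u z.1) := by
    intro u
    by_cases hu : 1 ≤ u
    · obtain ⟨g, g', i, i', h1, h2, h3⟩ := hP4 (fun g i => X u (g, i)) (hinj u hu)
      exact ⟨((g, i), (g', i')), fun _ => ⟨h1, h2, h3⟩⟩
    · have h1 := hinj 1 le_rfl
      obtain ⟨g, g', i, i', -⟩ := hP4 (fun g i => X 1 (g, i)) h1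
      exact ⟨((g, i), (g', i')), fun h => absurd h hu⟩
  choose z hz using hex
  have hcard : (Icc 1 U).card ≤ ((univ : Finset ((Fin 4 × Fin R) × (Fin 4 × Fin R))) ×ˢ
      ((Icc 1 q).filter (fun x => V x ∧ ¬ d ∣ x))).card := by
    refine card_le_card_of_injOn (fun u => (z u, X u (z u).2 - X u (z u).1)) ?_ ?_
    · intro u hu
      have hu' := mem_Icc.1 (mem_coe.1 hu)
      obtain ⟨h1, h2, h3⟩ := hz u hu'.1
      refine mem_coe.2 (mem_product.2 ⟨mem_univ _, mem_filter.2 ⟨mem_Icc.2 ⟨?_, ?_⟩, h3, ?_⟩⟩)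
      · show 1 ≤ X u (z u).2 - X u (z u).1
        omega
      · show X u (z u).2 - X u (z u).1 ≤ q
        have h4 : X u (z u).2 ≤ q := by
          have k1 := (z u).2.1.isLt
          have k2 := (z u).2.2.isLt
          have k3 : ((z u).2.1 : ℕ) + 4 * ((z u).2.2 : ℕ) ≤ 4 * R := by omega
          have k4 : d * u * (((z u).2.1 : ℕ) + 4 * ((z u).2.2 : ℕ)) ≤ d * U * (4 * R) :=
            Nat.mul_le_mul (Nat.mul_le_mul_left _ hu'.2) k3
          show ((z u).2.1 : ℕ) + d * u * (((z u).2.1 : ℕ) + 4 * ((z u).2.2 : ℕ)) ≤ q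
          omega
        omega
      · intro h4
        have h4' : (d : ℤ) ∣ ((X u (z u).2 : ℕ) : ℤ) - ((X u (z u).1 : ℕ) : ℤ) := by
          rw [← Nat.cast_sub h2.le]
          exact_mod_cast h4
        have e : ((X u (z u).2 : ℕ) : ℤ) - ((X u (z u).1 : ℕ) : ℤ) =
            (((z u).2.1 : ℕ) : ℤ) - (((z u).1.1 : ℕ) : ℤ) + d * (u * (((((z u).2.1 : ℕ) : ℤ) +
            4 * (((z u).2.2 : ℕ) : ℤ)) - ((((z u).1.1 : ℕ) : ℤ) + 4 * (((z u).1.2 : ℕ) : ℤ)))) := by
          simp only [hX]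
          push_cast
          ring
        rw [e, dvd_add_left (dvd_mul_right _ _)] at h4'
        have k1 := (z u).2.1.isLt
        have k2 := (z u).1.1.isLt
        have h5 : (((z u).2.1 : ℕ) : ℤ) - (((z u).1.1 : ℕ) : ℤ) = 0 := by
          apply Int.eq_zero_of_abs_lt_dvd h4'
          rw [abs_lt]
          constructor
          · omega
          · omega
        apply h1
        apply Fin.ext
        omega
    · intro u hu u' hu' h
      have hu1 := mem_Icc.1 (mem_coe.1 hu)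
      have hu2 := mem_Icc.1 (mem_coe.1 hu')
      obtain ⟨k1, k2, -⟩ := hz u hu1.1
      obtain ⟨l1, l2, -⟩ := hz u' hu2.1
      rw [Prod.mk.injEq] at h
      obtain ⟨h1, h2⟩ := h
      have h2' : X u (z u).2 - X u (z u).1 = X u' (z u').2 - X u' (z u').1 := h2
      rw [← h1] at h2' l2 l1
      have h3 : ((X u (z u).2 : ℕ) : ℤ) - ((X u (z u).1 : ℕ) : ℤ) =
          ((X u' (z u).2 : ℕ) : ℤ) - ((X u' (z u).1 : ℕ) : ℤ) := by
        rw [← Nat.cast_sub k2.le, ← Nat.cast_sub l2.le, h2']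
      simp only [hX] at h3
      push_cast at h3
      have h4 : ((d : ℤ) * (((((z u).2.1 : ℕ) : ℤ) + 4 * (((z u).2.2 : ℕ) : ℤ)) -
          ((((z u).1.1 : ℕ) : ℤ) + 4 * (((z u).1.2 : ℕ) : ℤ)))) * ((u : ℤ) - u') = 0 := by
        linear_combination h3
      have hd0 : (d : ℤ) ≠ 0 := by
        have : d ≠ 0 := by omega
        exact_mod_cast this
      rcases mul_eq_zero.1 h4 with h5 | h5
      · exfalso
        rcases mul_eq_zero.1 h5 with h6 | h6
        · exact hd0 h6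
        · apply k1
          apply Fin.ext
          have m1 := (z u).2.1.isLt
          have m2 := (z u).1.1.isLt
          omega
      · omega
  rw [Nat.card_Icc, card_product, card_univ, Fintype.card_prod, Fintype.card_prod, Fintype.card_fin,
    Fintype.card_fin, Nat.add_sub_cancel] at hcard
  have e : 4 * R * (4 * R) = (4 * R) ^ 2 := by ring
  rw [e] at hcard
  omega

theorem natdiv_lb (a b : ℕ) (hb : 0 < b) : (a : ℝ) / b - 1 < ((a / b : ℕ) : ℝ) := by
  have h1 := Nat.div_add_mod a b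
  have h2 := Nat.mod_lt a hb
  have h3 : (a : ℝ) = b * ((a / b : ℕ) : ℝ) + ((a % b : ℕ) : ℝ) := by exact_mod_cast h1.symm
  have h4 : ((a % b : ℕ) : ℝ) < b := by exact_mod_cast h2
  have hb' : (0 : ℝ) < b := by exact_mod_cast hb
  rw [sub_lt_iff_lt_add, div_lt_iff₀ hb']
  nlinarith

theorem natdiv_ub (a b : ℕ) : ((a / b : ℕ) : ℝ) ≤ (a : ℝ) / b := Nat.cast_div_le

open Classical in
/-- **structure** -/
theorem structure_thm (L R : ℕ) (hL : 1 ≤ L) (hR : 1 ≤ R) (δ : ℝ) (hδ : 0 < δ) :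
    ∃ θ : ℝ, 0 < θ ∧ ∃ q0 : ℕ, ∀ q : ℕ, q0 ≤ q → ∀ V : ℕ → Prop,
      (∀ x, ∃ k, V k ∧ x < k ∧ k ≤ x + L) → Four V R →
      ((badPairs V q).card : ℝ) ≤ θ ^ 2 * q ^ 2 →
      ∃ d, 1 ≤ d ∧ d ≤ 3 ∧
        (((Icc 1 q).filter (fun x => V x ∧ ¬ d ∣ x)).card : ℝ) ≤ δ * q ∧
        (((Icc 1 (q / d)).filter (fun j => ¬ V (d * j))).card : ℝ) ≤ δ * q := by
  have hLr : (1 : ℝ) ≤ L := by exact_mod_cast hL
  have hRr : (1 : ℝ) ≤ R := by exact_mod_cast hR
  have hL0 : (0 : ℝ) < L := by linarith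
  have hR0 : (0 : ℝ) < R := by linarith
  have hR3 : (1 : ℝ) ≤ (R : ℝ) ^ 3 := one_le_pow₀ hRr
  set θ : ℝ := min (1 / (1024 * (R : ℝ) ^ 3 * L)) (min 1 (δ / (8 * L))) with hθd
  have hθ : 0 < θ := lt_min (by positivity) (lt_min one_pos (by positivity))
  have hθ1 : θ * (1024 * (R : ℝ) ^ 3 * L) ≤ 1 := by
    have h1 : θ ≤ 1 / (1024 * (R : ℝ) ^ 3 * L) := min_le_left _ _
    calc θ * (1024 * (R : ℝ) ^ 3 * L) ≤ 1 / (1024 * (R : ℝ) ^ 3 * L) * (1024 * (R : ℝ) ^ 3 * L) :=
          mul_le_mul_of_nonneg_right h1 (by positivity)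
      _ = 1 := by field_simp
  have hθ2 : θ ≤ 1 := (min_le_right _ _).trans (min_le_left _ _)
  have hθ3 : θ * (8 * L) ≤ δ := by
    have h1 : θ ≤ δ / (8 * L) := (min_le_right _ _).trans (min_le_right _ _)
    calc θ * (8 * L) ≤ δ / (8 * L) * (8 * L) := mul_le_mul_of_nonneg_right h1 (by positivity)
      _ = δ := by field_simp
  have hθL : θ * (1024 * L) ≤ 1 := by
    refine le_trans ?_ hθ1
    apply mul_le_mul_of_nonneg_left _ hθ.le
    nlinarith
  refine ⟨θ, hθ, 16 * R * L + 16 * L + 6, ?_⟩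
  intro q hq V hsyn hP4 hbp
  have hqr : (16 * R * L + 16 * L + 6 : ℝ) ≤ q := by exact_mod_cast hq
  have hq0 : (0 : ℝ) < q := by nlinarith
  have hq0' : 0 < q := by exact_mod_cast hq0
  have hq16 : (16 * L + 6 : ℝ) ≤ q := by nlinarith [mul_pos hR0 hL0]
  have hbad : ∑ a ∈ (Icc 1 (16 * q)).filter V, ((bad V q a).card : ℝ) ≤ θ ^ 2 * q ^ 2 := by
    rw [sum_bad]; exact hbp
  have hat := atyp_card hθ hq0' hbad
  -- `q / (2 L)` is a lower bound of the quotients
  have hx : 1 ≤ (q : ℝ) / (16 * L) := by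
    rw [le_div_iff₀ (by positivity)]; linarith
  have hθq : θ * q ≤ (q : ℝ) / (1024 * L) := by
    rw [le_div_iff₀ (by positivity)]
    nlinarith
  set y : ℝ := (q : ℝ) / L with hy
  have hy16 : 16 ≤ y := by
    rw [hy, le_div_iff₀ hL0]; linarith
  have hθy : θ * q ≤ y / 1024 := by
    have e : y / 1024 = (q : ℝ) / (1024 * L) := by rw [hy]; field_simp
    rw [e]; exact hθq
  have hqm1 : y - 2 ≤ (((q - 1) / L : ℕ) : ℝ) := by
    have h1 := natdiv_lb (q - 1) L hL
    have h2 : ((q - 1 : ℕ) : ℝ) = q - 1 := by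
      rw [Nat.cast_sub hq0']; simp
    rw [h2, sub_div] at h1
    have h3 : (1 : ℝ) / L ≤ 1 := by rw [div_le_one hL0]; exact hLr
    linarith
  have hql : y - 1 ≤ ((q / L : ℕ) : ℝ) := (natdiv_lb q L hL).le
  have hqu : ((q / L : ℕ) : ℝ) ≤ y := natdiv_ub q L
  have h2q : 2 * y - 1 ≤ (((2 * q) / L : ℕ) : ℝ) := by
    have h1 := (natdiv_lb (2 * q) L hL).le
    push_cast at h1
    have e : 2 * (q : ℝ) / L = 2 * y := by rw [hy]; ring
    rw [e] at h1
    exact h1
  have hqL1 : 1 ≤ q / L := by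
    have h1 : (1 : ℝ) ≤ ((q / L : ℕ) : ℝ) := by linarith
    exact_mod_cast h1
  have hLq : L ≤ q := by
    have h1 : (L : ℝ) ≤ q := by linarith
    exact_mod_cast h1
  -- the good translations
  have hdich : ∀ t, 1 ≤ t → t ≤ 2 * q → ((Tr V t (8 * q)).card : ℝ) ≤ 8 * θ * q → Per V θ q t :=
    fun t ht1 ht2 h8 => per_dich hθ hsyn hat (by nlinarith) ht1 ht2 h8
  obtain ⟨d, hd1, hd2, hd3⟩ := per_struct hdich
    (exists_per hL hsyn hat (by push_cast; nlinarith))
  have hdr1 : (1 : ℝ) ≤ d := by exact_mod_cast hd1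
  have hdr0 : (0 : ℝ) < d := by linarith
  have hdr2 : (d : ℝ) ≤ 2 * L := by exact_mod_cast hd2
  have hnm := nonmult_count (d := d) hθ hsyn hat (by nlinarith) (by
    intro t ht
    exact (hd3 t ht.1 ht.2.1).1 ht)
  refine ⟨d, hd1, ?_, ?_, ?_⟩
  · -- `d ≤ 3`
    by_contra hcon
    push Not at hcon
    set U := (q - 3) / (4 * R * d) with hU
    have hRd : 0 < 4 * R * d := Nat.mul_pos (Nat.mul_pos (by norm_num) hR) hd1
    refine d_le_three (U := U) (q := q) (d := d) hP4 hcon ?_ ?_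
    · have h1 : (4 * R * d) * U ≤ q - 3 := Nat.mul_div_le _ _
      have h2 : d * U * (4 * R) = (4 * R * d) * U := by ring
      rw [h2]
      have h3 : 3 ≤ q := by
        have : (3 : ℝ) ≤ q := by nlinarith
        exact_mod_cast this
      omega
    · have h1 := natdiv_lb (q - 3) (4 * R * d) hRd
      rw [← hU] at h1
      have h3 : 3 ≤ q := by
        have : (3 : ℝ) ≤ q := by nlinarith
        exact_mod_cast this
      have h2 : ((q - 3 : ℕ) : ℝ) = q - 3 := by
        rw [Nat.cast_sub h3]; simp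
      rw [h2] at h1
      push_cast at h1
      -- lower bound for `U`
      have h4 : (q : ℝ) / (16 * R * L) ≤ ((q : ℝ) - 3) / (4 * R * d) - 1 := by
        have h5 : ((q : ℝ) - 3) / (8 * R * L) ≤ ((q : ℝ) - 3) / (4 * R * d) := by
          apply div_le_div_of_nonneg_left (by nlinarith) (by positivity)
          nlinarith [mul_pos hR0 hL0]
        have h6 : (q : ℝ) / (16 * R * L) + 1 ≤ ((q : ℝ) - 3) / (8 * R * L) := by
          have hw : (16 * (R : ℝ) * L + 6) / (8 * R * L) ≤ q / (8 * R * L) :=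
            div_le_div_of_nonneg_right (by linarith) (by positivity)
          have e1 : (16 * (R : ℝ) * L + 6) / (8 * R * L) = 2 + 2 * (3 / (8 * R * L)) := by
            field_simp
            ring
          have e2 : (q : ℝ) / (16 * R * L) = (q / (8 * R * L)) / 2 := by
            rw [div_div]; congr 1; ring
          rw [e1] at hw
          rw [e2, sub_div]
          linarith
        linarith
      have h7 : (16 * (R : ℝ) ^ 2) * (2 * θ * q) < (q : ℝ) / (16 * R * L) := by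
        rw [lt_div_iff₀ (by positivity)]
        have h8 : (16 * (R : ℝ) ^ 2) * (2 * θ * q) * (16 * R * L) =
            (θ * (1024 * (R : ℝ) ^ 3 * L)) * q / 2 := by ring
        rw [h8]
        nlinarith
      have h9 : (((4 * R) ^ 2 * ((Icc 1 q).filter (fun x => V x ∧ ¬ d ∣ x)).card : ℕ) : ℝ) < U := by
        push_cast
        calc (4 * (R : ℝ)) ^ 2 * (((Icc 1 q).filter (fun x => V x ∧ ¬ d ∣ x)).card : ℝ)
            ≤ (16 * (R : ℝ) ^ 2) * (2 * θ * q) := by
              have e : (4 * (R : ℝ)) ^ 2 = 16 * (R : ℝ) ^ 2 := by ring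
              rw [e]
              exact mul_le_mul_of_nonneg_left hnm (by positivity)
          _ < (q : ℝ) / (16 * R * L) := h7
          _ ≤ ((q : ℝ) - 3) / (4 * R * d) - 1 := h4
          _ < U := h1
      exact_mod_cast h9
  · refine hnm.trans ?_
    apply mul_le_mul_of_nonneg_right _ hq0.le
    nlinarith
  · -- the multiples of `d`
    obtain ⟨x, hx1, hx2, hx3, hx4⟩ := exists_base (d := d) hd1 hsyn
      (fun t ht1 ht2 ht3 => (hd3 t ht1 ht2).2 ht3) hqL1
    set b := ((Icc 1 (2 * q / d)).filter (fun j => ¬ V (x + d * j))).card with hb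
    have hmc := mult_count (V := V) (q := q) (d := d) (x := x) (b := b) hd1 hx2 hx3 le_rfl
    set M := ((Icc 1 (q / d)).filter (fun j => ¬ V (d * j))).card with hM
    have h1 : (b : ℝ) * (y / 2) ≤ 4 * θ * q * (2 * q / d) := by
      have h2 : y / 2 ≤ ((q / L : ℕ) : ℝ) := by linarith
      have h3 : ((2 * q / d : ℕ) : ℝ) ≤ 2 * q / d := by
        have := natdiv_ub (2 * q) d
        push_cast at this
        exact this
      calc (b : ℝ) * (y / 2) ≤ (b : ℝ) * ((q / L : ℕ) : ℝ) :=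
            mul_le_mul_of_nonneg_left h2 (Nat.cast_nonneg _)
        _ ≤ 4 * θ * q * ((2 * q / d : ℕ) : ℝ) := hx4
        _ ≤ _ := mul_le_mul_of_nonneg_left h3 (by positivity)
    have h2 : 2 * (b : ℝ) ≤ (q : ℝ) / (32 * d) := by
      have hy0 : 0 < y := by linarith
      have h3 : 4 * θ * q * (2 * q / d) = (θ * L * (8 * q / d)) * y := by
        rw [hy]; field_simp; ring
      rw [h3] at h1
      have h4 : (b : ℝ) / 2 ≤ θ * L * (8 * q / d) := by
        have h5 : (b : ℝ) / 2 * y ≤ (θ * L * (8 * q / d)) * y := by linarith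
        exact le_of_mul_le_mul_right h5 hy0
      have h5 : θ * L * (8 * q / d) ≤ (1 / 1024) * (8 * q / d) := by
        apply mul_le_mul_of_nonneg_right _ (by positivity)
        linarith
      have h6 : (1 / 1024 : ℝ) * (8 * q / d) = (q / (32 * d)) / 4 := by field_simp; norm_num
      linarith
    have h3 : (q : ℝ) / d - 1 ≤ ((q / d : ℕ) : ℝ) := (natdiv_lb q d hd1).le
    have h4 : (1 : ℝ) ≤ (q : ℝ) / (8 * d) := by
      rw [le_div_iff₀ (by positivity)]
      nlinarith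
    have h5 : (q : ℝ) / (4 * d) ≤ ((q / d - 2 * b : ℕ) : ℝ) := by
      have h6 : ((q / d : ℕ) : ℝ) - 2 * b ≤ ((q / d - 2 * b : ℕ) : ℝ) := by
        have h7 : q / d ≤ (q / d - 2 * b) + 2 * b := by omega
        have h8 : ((q / d : ℕ) : ℝ) ≤ ((q / d - 2 * b : ℕ) : ℝ) + 2 * b := by exact_mod_cast h7
        linarith
      have e1 : (q : ℝ) / (4 * d) = (q / d) / 4 := by field_simp
      have e2 : (q : ℝ) / (8 * d) = (q / d) / 8 := by field_simp
      have e3 : (q : ℝ) / (32 * d) = (q / d) / 32 := by field_simp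
      rw [e1]
      rw [e2] at h4
      rw [e3] at h2
      linarith
    have h6 : (M : ℝ) * ((q : ℝ) / (4 * d)) ≤ θ ^ 2 * q ^ 2 := by
      calc (M : ℝ) * ((q : ℝ) / (4 * d)) ≤ (M : ℝ) * ((q / d - 2 * b : ℕ) : ℝ) :=
            mul_le_mul_of_nonneg_left h5 (Nat.cast_nonneg _)
        _ = ((M * (q / d - 2 * b) : ℕ) : ℝ) := by push_cast; ring
        _ ≤ ((badPairs V q).card : ℝ) := by exact_mod_cast hmc
        _ ≤ _ := hbp
    have h7 : (q : ℝ) / (8 * L) ≤ (q : ℝ) / (4 * d) := by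
      apply div_le_div_of_nonneg_left hq0.le (by positivity)
      linarith
    have h8 : (M : ℝ) * ((q : ℝ) / (8 * L)) ≤ θ ^ 2 * q ^ 2 :=
      (mul_le_mul_of_nonneg_left h7 (Nat.cast_nonneg _)).trans h6
    have h9 : (M : ℝ) ≤ (θ * (8 * L)) * θ * q := by
      have h10 : (M : ℝ) * ((q : ℝ) / (8 * L)) ≤ ((θ * (8 * L)) * θ * q) * ((q : ℝ) / (8 * L)) := by
        refine h8.trans (le_of_eq ?_)
        field_simp
      exact le_of_mul_le_mul_right h10 (by positivity)
    calc (M : ℝ) ≤ (θ * (8 * L)) * θ * q := h9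
      _ ≤ δ * 1 * q := by
          apply mul_le_mul_of_nonneg_right _ hq0.le
          exact mul_le_mul hθ3 hθ2 hθ.le hδ.le
      _ = δ * q := by ring

end Pool.Agent.Q178.TG
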