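import Mathlib
import Pool.Agent.H362R2.CM.Box

/-! Sums of three prime gaps: few bad pairs (helper178). -/

set_option autoImplicit false

namespace Pool.Agent.Q178.TG

open Finset

open Classical in
/-- the pairs of members of `P` with a relation -/
noncomputable def prP (P : ℕ → Prop) (Rp : ℕ → ℕ → Prop) (q : ℕ) : Finset (ℕ × ℕ) :=
  ((Icc 1 (16 * q)) ×ˢ (Icc 1 (16 * q))).filter (fun z => P z.1 ∧ P z.2 ∧ Rp z.1 z.2)

open Classical in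
theorem mem_prP {P : ℕ → Prop} {Rp : ℕ → ℕ → Prop} {q : ℕ} {z : ℕ × ℕ} : z ∈ prP P Rp q ↔
    (z.1 ∈ Icc 1 (16 * q) ∧ z.2 ∈ Icc 1 (16 * q)) ∧ P z.1 ∧ P z.2 ∧ Rp z.1 z.2 := by
  unfold prP
  rw [mem_filter, mem_product]

theorem inj4 (g g' h h' : Fin 4) (hc : ∀ k : Fin 4, k = g ∨ k = g' ∨ k = h ∨ k = h') :
    Function.Injective (fun f : Fin 4 → ℕ => ((f g, f g'), (f h, f h'))) := by
  intro f f' hff
  simp only [Prod.mk.injEq] at hff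
  obtain ⟨⟨h1, h2⟩, h3, h4⟩ := hff
  funext k
  rcases hc k with h | h | h | h <;> subst h <;> assumption

open Classical in
theorem cnt4 (P : ℕ → Prop) (Rp : ℕ → ℕ → Prop) (q : ℕ) (g g' h h' : Fin 4)
    (hc : ∀ k : Fin 4, k = g ∨ k = g' ∨ k = h ∨ k = h') :
    ((Fintype.piFinset (fun _ : Fin 4 => Icc 1 (16 * q))).filter
      (fun f => (f g, f g') ∈ prP P Rp q)).card ≤ (prP P Rp q).card * ((16 * q) * (16 * q)) := by
  have e : (prP P Rp q).card * ((16 * q) * (16 * q)) =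
      ((prP P Rp q) ×ˢ ((Icc 1 (16 * q)) ×ˢ (Icc 1 (16 * q)))).card := by
    rw [card_product, card_product, Nat.card_Icc, Nat.add_sub_cancel]
  rw [e]
  refine card_le_card_of_injOn (fun f => ((f g, f g'), (f h, f h'))) ?_ ?_
  · intro f hf
    obtain ⟨h1, h2⟩ := mem_filter.1 (mem_coe.1 hf)
    rw [Fintype.mem_piFinset] at h1
    exact mem_coe.2 (mem_product.2 ⟨h2, mem_product.2 ⟨h1 h, h1 h'⟩⟩)
  · exact (inj4 g g' h h' hc).injOn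

open Classical in
/-- few bad pairs -/
theorem bad_small4 (R : ℕ) (hR : 1 ≤ R) (ε : ℝ) (hε : 0 < ε) : ∃ τ : ℝ, 0 < τ ∧ ∃ q0 : ℕ,
    ∀ q : ℕ, q0 ≤ q → ∀ (P D : ℕ → Prop) (Rp : ℕ → ℕ → Prop),
    (∀ A : Fin 4 → Fin R → ℕ, (∀ g, Function.Injective (A g)) →
      (∀ g i, 1 ≤ A g i ∧ A g i ≤ 16 * q ∧ P (A g i)) →
      (∀ i j, A 1 j < A 0 i) → (∀ i j, A 3 j < A 2 i) →
      (∃ i j, D (A 0 i - A 1 j)) ∨ (∃ i j, D (A 2 i - A 3 j)) ∨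
      (∃ g g' i j, (g = 0 ∨ g = 1) ∧ (g' = 2 ∨ g' = 3) ∧ Rp (A g i) (A g' j))) →
    ((prP P Rp q).card : ℝ) ≤ τ * q ^ 2 →
    ((prP P (fun x y => y < x ∧ ¬ D (x - y)) q).card : ℝ) ≤ ε * q ^ 2 := by
  obtain ⟨N, hN⟩ := Pool.Agent.H362R2.CM.box_lemma 4 R (ε ^ 2 / 131072) (by positivity)
  refine ⟨ε ^ 2 / 2048, by positivity, N, fun q hq P D Rp hV hRp => ?_⟩
  by_contra hcon
  push Not at hcon
  set BP := prP P (fun x y => y < x ∧ ¬ D (x - y)) q with hBP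
  set RP := prP P Rp q with hRPd
  set Pi4 := Fintype.piFinset (fun _ : Fin 4 => Icc 1 (16 * q)) with hPi4
  set B : Finset (Fin 4 → ℕ) := Pi4.filter (fun f => (f 0, f 1) ∈ BP ∧ (f 2, f 3) ∈ BP ∧
    (f 0, f 2) ∉ RP ∧ (f 0, f 3) ∉ RP ∧ (f 1, f 2) ∉ RP ∧ (f 1, f 3) ∉ RP) with hB
  have h02 : (Pi4.filter (fun f => (f 0, f 2) ∈ RP)).card ≤ RP.card * ((16 * q) * (16 * q)) :=
    cnt4 P Rp q 0 2 1 3 (by decide)
  have h03 : (Pi4.filter (fun f => (f 0, f 3) ∈ RP)).card ≤ RP.card * ((16 * q) * (16 * q)) :=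
    cnt4 P Rp q 0 3 1 2 (by decide)
  have h12 : (Pi4.filter (fun f => (f 1, f 2) ∈ RP)).card ≤ RP.card * ((16 * q) * (16 * q)) :=
    cnt4 P Rp q 1 2 0 3 (by decide)
  have h13 : (Pi4.filter (fun f => (f 1, f 3) ∈ RP)).card ≤ RP.card * ((16 * q) * (16 * q)) :=
    cnt4 P Rp q 1 3 0 2 (by decide)
  have h0 : BP.card * BP.card ≤ B.card + 4 * (RP.card * ((16 * q) * (16 * q))) := by
    have e1 : BP.card * BP.card ≤ (Pi4.filter (fun f => (f 0, f 1) ∈ BP ∧ (f 2, f 3) ∈ BP)).card := by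
      rw [← card_product]
      refine card_le_card_of_injOn (fun z => ![z.1.1, z.1.2, z.2.1, z.2.2]) ?_ ?_
      · rintro ⟨z, w⟩ hz
        obtain ⟨hz1, hz2⟩ := mem_product.1 (mem_coe.1 hz)
        have k1 := (mem_prP.1 hz1).1
        have k2 := (mem_prP.1 hz2).1
        refine mem_coe.2 (mem_filter.2 ⟨?_, hz1, hz2⟩)
        rw [hPi4, Fintype.mem_piFinset]
        intro i
        fin_cases i
        · exact k1.1
        · exact k1.2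
        · exact k2.1
        · exact k2.2
      · rintro ⟨z, w⟩ _ ⟨z', w'⟩ _ h
        have a0 : ![z.1, z.2, w.1, w.2] 0 = ![z'.1, z'.2, w'.1, w'.2] 0 := congrFun h 0
        have a1 : ![z.1, z.2, w.1, w.2] 1 = ![z'.1, z'.2, w'.1, w'.2] 1 := congrFun h 1
        have a2 : ![z.1, z.2, w.1, w.2] 2 = ![z'.1, z'.2, w'.1, w'.2] 2 := congrFun h 2
        have a3 : ![z.1, z.2, w.1, w.2] 3 = ![z'.1, z'.2, w'.1, w'.2] 3 := congrFun h 3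
        exact Prod.ext (Prod.ext a0 a1) (Prod.ext a2 a3)
    have e2 : (Pi4.filter (fun f => (f 0, f 1) ∈ BP ∧ (f 2, f 3) ∈ BP)) ⊆ B ∪
        ((Pi4.filter (fun f => (f 0, f 2) ∈ RP) ∪ Pi4.filter (fun f => (f 0, f 3) ∈ RP)) ∪
        (Pi4.filter (fun f => (f 1, f 2) ∈ RP) ∪ Pi4.filter (fun f => (f 1, f 3) ∈ RP))) := by
      intro f hf
      obtain ⟨k1, k2, k3⟩ := mem_filter.1 hf
      by_contra hh
      simp only [mem_union, not_or, mem_filter, not_and, hB] at hh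
      obtain ⟨l0, ⟨l1, l2⟩, l3, l4⟩ := hh
      exact l0 k1 k2 k3 (l1 k1) (l2 k1) (l3 k1) (l4 k1)
    have e3 := card_le_card e2
    have e4 := card_union_le B
        ((Pi4.filter (fun f => (f 0, f 2) ∈ RP) ∪ Pi4.filter (fun f => (f 0, f 3) ∈ RP)) ∪
        (Pi4.filter (fun f => (f 1, f 2) ∈ RP) ∪ Pi4.filter (fun f => (f 1, f 3) ∈ RP)))
    have e5 := card_union_le (Pi4.filter (fun f => (f 0, f 2) ∈ RP) ∪ Pi4.filter (fun f => (f 0, f 3) ∈ RP))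
        (Pi4.filter (fun f => (f 1, f 2) ∈ RP) ∪ Pi4.filter (fun f => (f 1, f 3) ∈ RP))
    have e6 := card_union_le (Pi4.filter (fun f => (f 0, f 2) ∈ RP)) (Pi4.filter (fun f => (f 0, f 3) ∈ RP))
    have e7 := card_union_le (Pi4.filter (fun f => (f 1, f 2) ∈ RP)) (Pi4.filter (fun f => (f 1, f 3) ∈ RP))
    omega
  have h0r : (BP.card : ℝ) * BP.card ≤ B.card + 4 * (RP.card * ((16 * q) * (16 * q))) := by
    exact_mod_cast h0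
  have hq2 : (0 : ℝ) ≤ (q : ℝ) ^ 2 := by positivity
  have hBlow : ε ^ 2 / 131072 * (16 * (q : ℝ)) ^ 4 ≤ B.card := by
    have h1 : (ε * q ^ 2) * (ε * q ^ 2) ≤ (BP.card : ℝ) * BP.card :=
      mul_le_mul hcon.le hcon.le (by positivity) (by positivity)
    have h2 : 4 * ((RP.card : ℝ) * ((16 * q) * (16 * q))) ≤
        4 * ((ε ^ 2 / 2048 * q ^ 2) * ((16 * q) * (16 * q))) := by
      apply mul_le_mul_of_nonneg_left _ (by norm_num)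
      exact mul_le_mul_of_nonneg_right hRp (by positivity)
    have h3 : ε ^ 2 / 131072 * (16 * (q : ℝ)) ^ 4 = (ε * q ^ 2) * (ε * q ^ 2) -
        4 * ((ε ^ 2 / 2048 * q ^ 2) * ((16 * q) * (16 * q))) := by ring
    rw [h3]
    linarith
  obtain ⟨A, hA1, hA2⟩ := hN ℕ (fun _ => Icc 1 (16 * q)) (by
    intro i
    rw [Nat.card_Icc]
    omega) B (filter_subset _ _) (by
    rw [prod_const, card_univ, Fintype.card_fin, Nat.card_Icc, Nat.add_sub_cancel]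
    push_cast
    exact hBlow)
  have key : ∀ c : Fin 4 → Fin R, (A 0 (c 0), A 1 (c 1)) ∈ BP ∧ (A 2 (c 2), A 3 (c 3)) ∈ BP ∧
      (A 0 (c 0), A 2 (c 2)) ∉ RP ∧ (A 0 (c 0), A 3 (c 3)) ∉ RP ∧ (A 1 (c 1), A 2 (c 2)) ∉ RP ∧
      (A 1 (c 1), A 3 (c 3)) ∉ RP := fun c => (mem_filter.1 (hA2 c)).2
  have key01 : ∀ i j, P (A 0 i) ∧ P (A 1 j) ∧ A 1 j < A 0 i ∧ ¬ D (A 0 i - A 1 j) ∧
      1 ≤ A 0 i ∧ A 0 i ≤ 16 * q ∧ 1 ≤ A 1 j ∧ A 1 j ≤ 16 * q := by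
    intro i j
    have h3 := (key ![i, j, i, j]).1
    obtain ⟨⟨h9, h10⟩, h5, h6, h7, h8⟩ := mem_prP.1 h3
    exact ⟨h5, h6, h7, h8, (mem_Icc.1 h9).1, (mem_Icc.1 h9).2, (mem_Icc.1 h10).1, (mem_Icc.1 h10).2⟩
  have key23 : ∀ i j, P (A 2 i) ∧ P (A 3 j) ∧ A 3 j < A 2 i ∧ ¬ D (A 2 i - A 3 j) ∧
      1 ≤ A 2 i ∧ A 2 i ≤ 16 * q ∧ 1 ≤ A 3 j ∧ A 3 j ≤ 16 * q := by
    intro i j
    have h3 := (key ![i, j, i, j]).2.1
    obtain ⟨⟨h9, h10⟩, h5, h6, h7, h8⟩ := mem_prP.1 h3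
    exact ⟨h5, h6, h7, h8, (mem_Icc.1 h9).1, (mem_Icc.1 h9).2, (mem_Icc.1 h10).1, (mem_Icc.1 h10).2⟩
  have hmem : ∀ g i, 1 ≤ A g i ∧ A g i ≤ 16 * q ∧ P (A g i) := by
    intro g i
    fin_cases g
    · exact ⟨(key01 i ⟨0, hR⟩).2.2.2.2.1, (key01 i ⟨0, hR⟩).2.2.2.2.2.1, (key01 i ⟨0, hR⟩).1⟩
    · exact ⟨(key01 ⟨0, hR⟩ i).2.2.2.2.2.2.1, (key01 ⟨0, hR⟩ i).2.2.2.2.2.2.2, (key01 ⟨0, hR⟩ i).2.1⟩
    · exact ⟨(key23 i ⟨0, hR⟩).2.2.2.2.1, (key23 i ⟨0, hR⟩).2.2.2.2.2.1, (key23 i ⟨0, hR⟩).1⟩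
    · exact ⟨(key23 ⟨0, hR⟩ i).2.2.2.2.2.2.1, (key23 ⟨0, hR⟩ i).2.2.2.2.2.2.2, (key23 ⟨0, hR⟩ i).2.1⟩
  have hnr : ∀ g g' i j, (A g i, A g' j) ∉ RP → ¬ Rp (A g i) (A g' j) := by
    intro g g' i j h1 h2
    apply h1
    exact mem_prP.2 ⟨⟨mem_Icc.2 ⟨(hmem g i).1, (hmem g i).2.1⟩,
      mem_Icc.2 ⟨(hmem g' j).1, (hmem g' j).2.1⟩⟩, (hmem g i).2.2, (hmem g' j).2.2, h2⟩
  rcases hV A hA1 hmem (fun i j => (key01 i j).2.2.1) (fun i j => (key23 i j).2.2.1) with h | h | h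
  · obtain ⟨i, j, h⟩ := h
    exact (key01 i j).2.2.2.1 h
  · obtain ⟨i, j, h⟩ := h
    exact (key23 i j).2.2.2.1 h
  · obtain ⟨g, g', i, j, hg, hg', h⟩ := h
    rcases hg with rfl | rfl <;> rcases hg' with rfl | rfl
    · exact hnr _ _ _ _ (key ![i, i, j, j]).2.2.1 h
    · exact hnr _ _ _ _ (key ![i, i, j, j]).2.2.2.1 h
    · exact hnr _ _ _ _ (key ![i, i, j, j]).2.2.2.2.1 h
    · exact hnr _ _ _ _ (key ![i, i, j, j]).2.2.2.2.2 h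

end Pool.Agent.Q178.TG
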