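import Mathlib
import Pool.Agent.Q178.TG.Core3
import Pool.Agent.Q178.TG.Kst

/-! Sums of three prime gaps: the counts (helper178). -/

set_option autoImplicit false

namespace Pool.Agent.Q178.TG

open Finset

/-- the property of four classes, two classes modulo three -/
def H4 (W : ℕ → Prop) (R : ℕ) : Prop := ∀ X : Fin 4 → Fin R → ℕ,
  Function.Injective (fun x : Fin 4 × Fin R => X x.1 x.2) →
  (∃ c c' : ℕ, ∀ g i, X g i % 3 = c ∨ X g i % 3 = c') →
  ∃ g g' i i', g ≠ g' ∧ X g i < X g' i' ∧ W (X g' i' - X g i)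

/-- multiples are syndetic -/
def HS (W : ℕ → Prop) : Prop := ∀ d : ℕ, 1 ≤ d → ∃ L : ℕ, 1 ≤ L ∧
  ∀ x, ∃ k, W (3 * (d * k)) ∧ x < k ∧ k ≤ x + L

theorem badPairs_eq (V : ℕ → Prop) (q : ℕ) :
    badPairs V q = prP V (fun x y => y < x ∧ ¬ V (x - y)) q := by
  classical
  ext z
  rw [mem_prP]
  simp only [badPairs, mem_filter, mem_product]

open Classical in
/-- the representations with the first member small -/
theorem count_rep {V : ℕ → Prop} {d L q M : ℕ}
    (hsyn : ∀ x, ∃ k, V (d * k) ∧ x < k ∧ k ≤ x + L) (hM : q / d < M) :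
    (q / d) / L ≤ ((Icc 1 (q / d)).filter (fun j => V (d * j) ∧ V (d * (M - j)))).card +
      ((Icc 1 (q / d)).filter (fun j => ¬ V (d * j))).card := by
  have h1 := window_card (V := fun k => V (d * k)) hsyn (M - 1 - q / d) (q / d)
  refine h1.trans ?_
  have h2 : ((Ioc (M - 1 - q / d) (M - 1 - q / d + q / d)).filter (fun k => V (d * k))).card ≤
      ((Icc 1 (q / d)).filter (fun j => V (d * (M - j)))).card := by
    refine card_le_card_of_injOn (fun k => M - k) ?_ ?_
    · intro k hk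
      obtain ⟨h3, h4⟩ := mem_filter.1 (mem_coe.1 hk)
      rw [mem_Ioc] at h3
      refine mem_coe.2 (mem_filter.2 ⟨mem_Icc.2 ⟨?_, ?_⟩, ?_⟩)
      · show 1 ≤ M - k
        omega
      · show M - k ≤ q / d
        omega
      · show V (d * (M - (M - k)))
        have e : M - (M - k) = k := by omega
        rw [e]
        exact h4
    · intro k hk k' hk' h
      have h3 := mem_Ioc.1 (mem_filter.1 (mem_coe.1 hk)).1
      have h4 := mem_Ioc.1 (mem_filter.1 (mem_coe.1 hk')).1
      have h5 : M - k = M - k' := h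
      omega
  refine h2.trans ?_
  refine (card_le_card ?_).trans (card_union_le _ _)
  intro j hj
  obtain ⟨h3, h4⟩ := mem_filter.1 hj
  by_cases h5 : V (d * j)
  · exact mem_union_left _ (mem_filter.2 ⟨h3, h5, h4⟩)
  · exact mem_union_right _ (mem_filter.2 ⟨h3, h5⟩)

/-- the four classes for the pairs of members below `ν / 6` and their mirror images -/
theorem mirror {W : ℕ → Prop} {R : ℕ} (h4 : H4 W R) {ν q : ℕ} (hν : 96 * q < ν) :
    ∀ A : Fin 4 → Fin R → ℕ, (∀ g, Function.Injective (A g)) →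
      (∀ g i, 1 ≤ A g i ∧ A g i ≤ 16 * q ∧ W (3 * A g i)) →
      (∀ i j, A 1 j < A 0 i) → (∀ i j, A 3 j < A 2 i) →
      (∃ i j, W (3 * (A 0 i - A 1 j))) ∨ (∃ i j, W (3 * (A 2 i - A 3 j))) ∨
      (∃ g g' i j, (g = 0 ∨ g = 1) ∧ (g' = 2 ∨ g' = 3) ∧ W (ν - 3 * A g i - 3 * A g' j)) := by
  intro A hinj hA h01 h23
  set X : Fin 4 → Fin R → ℕ := fun g i => if g = 0 ∨ g = 1 then 3 * A g i else ν - 3 * A g i with hX
  have hX0 : ∀ g i, (g = 0 ∨ g = 1) → X g i = 3 * A g i := fun g i hg => by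
    simp only [hX, if_pos hg]
  have hX1 : ∀ g i, (g = 2 ∨ g = 3) → X g i = ν - 3 * A g i := fun g i hg => by
    have hg' : ¬ (g = 0 ∨ g = 1) := by omega
    simp only [hX, if_neg hg']
  have hb : ∀ g i, 3 * A g i ≤ 48 * q := fun g i => by
    have := (hA g i).2.1
    omega
  have hcr : ∀ g i g' i', (g = 0 ∨ g = 1) → (g' = 2 ∨ g' = 3) → X g i < X g' i' := by
    intro g i g' i' hg hg'
    rw [hX0 g i hg, hX1 g' i' hg']
    have h1 := hb g i
    have h2 := hb g' i'
    omega
  have hside : ∀ g : Fin 4, (g = 0 ∨ g = 1) ∨ (g = 2 ∨ g = 3) := by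
    intro g
    fin_cases g <;> simp
  have hXinj : Function.Injective (fun x : Fin 4 × Fin R => X x.1 x.2) := by
    rintro ⟨g, i⟩ ⟨g', i'⟩ h
    have h1 : X g i = X g' i' := h
    rcases hside g with k | k <;> rcases hside g' with k' | k'
    · rw [hX0 g i k, hX0 g' i' k'] at h1
      have h2 : A g i = A g' i' := by omega
      have h3 : g = g' := by
        rcases k with rfl | rfl <;> rcases k' with rfl | rfl
        · rfl
        · have := h01 i i'; omega
        · have := h01 i' i; omega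
        · rfl
      subst h3
      rw [hinj g h2]
    · exact absurd h1 (hcr g i g' i' k k').ne
    · exact absurd h1 (hcr g' i' g i k' k).ne'
    · rw [hX1 g i k, hX1 g' i' k'] at h1
      have h2 : A g i = A g' i' := by
        have := hb g i
        have := hb g' i'
        omega
      have h3 : g = g' := by
        rcases k with rfl | rfl <;> rcases k' with rfl | rfl
        · rfl
        · have := h23 i i'; omega
        · have := h23 i' i; omega
        · rfl
      subst h3
      rw [hinj g h2]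
  have hX3 : ∀ g i, X g i % 3 = 0 ∨ X g i % 3 = ν % 3 := by
    intro g i
    rcases hside g with k | k
    · left
      rw [hX0 g i k]
      omega
    · right
      rw [hX1 g i k]
      have := hb g i
      omega
  obtain ⟨g, g', i, i', hne, hlt, hW⟩ := h4 X hXinj ⟨0, ν % 3, hX3⟩
  rcases hside g with k | k <;> rcases hside g' with k' | k'
  · left
    rw [hX0 g i k, hX0 g' i' k'] at hlt hW
    have h1 : g = 1 ∧ g' = 0 := by
      rcases k with rfl | rfl <;> rcases k' with rfl | rfl
      · exact absurd rfl hne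
      · have := h01 i i'; omega
      · exact ⟨rfl, rfl⟩
      · exact absurd rfl hne
    obtain ⟨rfl, rfl⟩ := h1
    refine ⟨i', i, ?_⟩
    rw [Nat.mul_sub]
    exact hW
  · right; right
    rw [hX0 g i k, hX1 g' i' k'] at hW
    refine ⟨g, g', i, i', k, k', ?_⟩
    have e : ν - 3 * A g i - 3 * A g' i' = ν - 3 * A g' i' - 3 * A g i := by omega
    rw [e]
    exact hW
  · exact absurd hlt (not_lt.2 (hcr g' i' g i k' k).le)
  · right; left
    rw [hX1 g i k, hX1 g' i' k'] at hlt hW
    have h1 : g = 2 ∧ g' = 3 := by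
      rcases k with rfl | rfl <;> rcases k' with rfl | rfl
      · exact absurd rfl hne
      · exact ⟨rfl, rfl⟩
      · have := h23 i' i
        have := hb 3 i
        have := hb 2 i'
        omega
      · exact absurd rfl hne
    obtain ⟨rfl, rfl⟩ := h1
    refine ⟨i, i', ?_⟩
    have e : 3 * (A 2 i - A 3 i') = ν - 3 * A 3 i' - (ν - 3 * A 2 i) := by
      have := hb 2 i
      have := hb 3 i'
      have := h23 i i'
      omega
    rw [e]
    exact hW

open Classical in
/-- **the dichotomy at the scale `ν`**: many representations with three members of `W`, or almost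
all multiples of `3 d` up to `ν / 96` are in `W`, for a `d ≤ 3` -/
theorem dich (W : ℕ → Prop) (R : ℕ) (hR : 1 ≤ R) (h4 : H4 W R) (hS : HS W) (δ : ℝ) (hδ : 0 < δ) :
    ∃ τ : ℝ, 0 < τ ∧ ∃ q0 : ℕ, ∀ q ν : ℕ, q0 ≤ q → 96 * q < ν →
      τ * (q : ℝ) ^ 2 < ((prP (fun k => W (3 * k)) (fun x y => W (ν - 3 * x - 3 * y)) q).card : ℝ) ∨
      ∃ d, 1 ≤ d ∧ d ≤ 3 ∧
        (((Icc 1 q).filter (fun x => W (3 * x) ∧ ¬ d ∣ x)).card : ℝ) ≤ δ * q ∧
        (((Icc 1 (q / d)).filter (fun j => ¬ W (3 * (d * j)))).card : ℝ) ≤ δ * q := by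
  obtain ⟨L, hL, hsyn⟩ := hS 1 le_rfl
  have hsyn' : ∀ x, ∃ k, W (3 * k) ∧ x < k ∧ k ≤ x + L := by
    intro x
    obtain ⟨k, h1, h2, h3⟩ := hsyn x
    rw [one_mul] at h1
    exact ⟨k, h1, h2, h3⟩
  obtain ⟨θ, hθ, q1, hst⟩ := structure_thm L R hL hR δ hδ
  obtain ⟨τ, hτ, q2, hbad⟩ := bad_small4 R hR (θ ^ 2) (by positivity)
  refine ⟨τ, hτ, max q1 q2, fun q ν hq hν => ?_⟩
  by_cases hc : τ * (q : ℝ) ^ 2 <
    ((prP (fun k => W (3 * k)) (fun x y => W (ν - 3 * x - 3 * y)) q).card : ℝ)
  · exact Or.inl hc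
  · right
    push Not at hc
    have h1 := hbad q ((le_max_right _ _).trans hq) (fun k => W (3 * k)) (fun k => W (3 * k))
      (fun x y => W (ν - 3 * x - 3 * y)) (mirror h4 hν) hc
    have hF : Four (fun k => W (3 * k)) R := by
      intro X hX
      obtain ⟨g, g', i, i', h2, h3, h5⟩ := h4 (fun g i => 3 * X g i) (by
        intro z z' h
        have h5 : 3 * X z.1 z.2 = 3 * X z'.1 z'.2 := h
        exact hX (by show X z.1 z.2 = X z'.1 z'.2; omega))
        ⟨0, 0, fun g i => Or.inl (Nat.mul_mod_right _ _)⟩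
      refine ⟨g, g', i, i', h2, by omega, ?_⟩
      show W (3 * (X g' i' - X g i))
      rw [Nat.mul_sub]
      exact h5
    refine hst q ((le_max_left _ _).trans hq) (fun k => W (3 * k)) hsyn' hF ?_
    rw [badPairs_eq]
    exact h1

end Pool.Agent.Q178.TG
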