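import Mathlib
import Pool.Agent.Q178.TG.Fin1

/-! Sums of three prime gaps: the classes modulo nine (helper178). -/

set_option autoImplicit false

namespace Pool.Agent.Q178.TG

open Finset

/-- the members that are not multiples of three -/
def S3 (W : ℕ → Prop) (k : ℕ) : Prop := W k ∧ ¬ 3 ∣ k

/-- the four classes for the pairs of members of `S3` and their mirror images -/
theorem mirror2 {W : ℕ → Prop} {R : ℕ} (h4 : H4 W R) {ν q : ℕ} (hν : 96 * q < ν) (hν3 : 3 ∣ ν) :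
    ∀ A : Fin 4 → Fin R → ℕ, (∀ g, Function.Injective (A g)) →
      (∀ g i, 1 ≤ A g i ∧ A g i ≤ 16 * q ∧ S3 W (A g i)) →
      (∀ i j, A 1 j < A 0 i) → (∀ i j, A 3 j < A 2 i) →
      (∃ i j, W (A 0 i - A 1 j)) ∨ (∃ i j, W (A 2 i - A 3 j)) ∨
      (∃ g g' i j, (g = 0 ∨ g = 1) ∧ (g' = 2 ∨ g' = 3) ∧ W (ν - A g i - A g' j)) := by
  intro A hinj hA h01 h23
  set X : Fin 4 → Fin R → ℕ := fun g i => if g = 0 ∨ g = 1 then A g i else ν - A g i with hX
  have hX0 : ∀ g i, (g = 0 ∨ g = 1) → X g i = A g i := fun g i hg => by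
    simp only [hX, if_pos hg]
  have hX1 : ∀ g i, (g = 2 ∨ g = 3) → X g i = ν - A g i := fun g i hg => by
    have hg' : ¬ (g = 0 ∨ g = 1) := by omega
    simp only [hX, if_neg hg']
  have hb : ∀ g i, A g i ≤ 16 * q := fun g i => (hA g i).2.1
  have hcr : ∀ g i g' i', (g = 0 ∨ g = 1) → (g' = 2 ∨ g' = 3) → X g i < X g' i' := by
    intro g i g' i' hg hg'
    rw [hX0 g i hg, hX1 g' i' hg']
    have h1 := hb g i
    have h2 := hb g' i'
    omega
  have hside : ∀ g : Fin 4, (g = 0 ∨ g = 1) ∨ (g = 2 ∨ g = 3) := by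
    intro g
    fin_cases g <;> simp
  have hXinj : Function.Injective (fun x : Fin 4 × Fin R => X x.1 x.2) := by
    rintro ⟨g, i⟩ ⟨g', i'⟩ h
    have h1 : X g i = X g' i' := h
    rcases hside g with k | k <;> rcases hside g' with k' | k'
    · rw [hX0 g i k, hX0 g' i' k'] at h1
      have h3 : g = g' := by
        rcases k with rfl | rfl <;> rcases k' with rfl | rfl
        · rfl
        · have := h01 i i'; omega
        · have := h01 i' i; omega
        · rfl
      subst h3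
      rw [hinj g h1]
    · exact absurd h1 (hcr g i g' i' k k').ne
    · exact absurd h1 (hcr g' i' g i k' k).ne'
    · rw [hX1 g i k, hX1 g' i' k'] at h1
      have h2 : A g i = A g' i' := by
        have := hb g i
        have := hb g' i'
        omega
      have h3 : g = g' := by
        rcases k with rfl | rfl <;> rcases k' with rfl | rfl
        · rfl
        · have := h23 i i'; omega
        · have := h23 i' i; omega
        · rfl
      subst h3
      rw [hinj g h2]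
  have hX3 : ∀ g i, X g i % 3 = 1 ∨ X g i % 3 = 2 := by
    intro g i
    have h1 := (hA g i).2.2.2
    rcases hside g with k | k
    · rw [hX0 g i k]
      omega
    · rw [hX1 g i k]
      have := hb g i
      omega
  obtain ⟨g, g', i, i', hne, hlt, hW⟩ := h4 X hXinj ⟨1, 2, hX3⟩
  rcases hside g with k | k <;> rcases hside g' with k' | k'
  · left
    rw [hX0 g i k, hX0 g' i' k'] at hlt hW
    have h1 : g = 1 ∧ g' = 0 := by
      rcases k with rfl | rfl <;> rcases k' with rfl | rfl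
      · exact absurd rfl hne
      · have := h01 i i'; omega
      · exact ⟨rfl, rfl⟩
      · exact absurd rfl hne
    obtain ⟨rfl, rfl⟩ := h1
    exact ⟨i', i, hW⟩
  · right; right
    rw [hX0 g i k, hX1 g' i' k'] at hW
    refine ⟨g, g', i, i', k, k', ?_⟩
    have e : ν - A g i - A g' i' = ν - A g' i' - A g i := by omega
    rw [e]
    exact hW
  · exact absurd hlt (not_lt.2 (hcr g' i' g i k' k).le)
  · right; left
    rw [hX1 g i k, hX1 g' i' k'] at hlt hW
    have h1 : g = 2 ∧ g' = 3 := by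
      rcases k with rfl | rfl <;> rcases k' with rfl | rfl
      · exact absurd rfl hne
      · exact ⟨rfl, rfl⟩
      · have := h23 i' i
        have := hb 3 i
        have := hb 2 i'
        omega
      · exact absurd rfl hne
    obtain ⟨rfl, rfl⟩ := h1
    refine ⟨i, i', ?_⟩
    have e : A 2 i - A 3 i' = ν - A 3 i' - (ν - A 2 i) := by
      have := hb 2 i
      have := hb 3 i'
      have := h23 i i'
      omega
    rw [e]
    exact hW

open Classical in
/-- the members of a class modulo nine -/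
noncomputable def NC (W : ℕ → Prop) (q c : ℕ) : Finset ℕ := (Icc 1 q).filter (fun x => W x ∧ x % 9 = c)

open Classical in
/-- pairs of members of two classes -/
theorem classes {W : ℕ → Prop} {q c c' : ℕ} (T T' : Finset ℕ) (hc : ¬ 3 ∣ c) (hc' : ¬ 3 ∣ c')
    (h1 : ∀ x ∈ NC W q c, ∀ y ∈ NC W q c', y < x → W (x - y) → x - y ∈ T)
    (h2 : ∀ x ∈ NC W q c, ∀ y ∈ NC W q c', x < y → W (y - x) → y - x ∈ T')
    (hne : c ≠ c') :
    (NC W q c).card * (NC W q c').card ≤
      2 * (prP (S3 W) (fun x y => y < x ∧ ¬ W (x - y)) q).card + T.card * q + T'.card * q := by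
  set BP := prP (S3 W) (fun x y => y < x ∧ ¬ W (x - y)) q with hBP
  rw [← card_product]
  have hsub : (NC W q c) ×ˢ (NC W q c') ⊆ (BP ∪ BP.image Prod.swap) ∪
      ((T ×ˢ Icc 1 q).image (fun z => (z.1 + z.2, z.2)) ∪
        (T' ×ˢ Icc 1 q).image (fun z => (z.2, z.1 + z.2))) := by
    rintro ⟨x, y⟩ hz
    obtain ⟨hx, hy⟩ := mem_product.1 hz
    have hx' : x ∈ NC W q c := hx
    have hy' : y ∈ NC W q c' := hy
    obtain ⟨k1, k2, k3⟩ := mem_filter.1 hx'
    obtain ⟨l1, l2, l3⟩ := mem_filter.1 hy'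
    rw [mem_Icc] at k1 l1
    have k4 : S3 W x := ⟨k2, by omega⟩
    have l4 : S3 W y := ⟨l2, by omega⟩
    rcases Nat.lt_trichotomy y x with h | h | h
    · by_cases hw : W (x - y)
      · apply mem_union_right
        apply mem_union_left
        refine mem_image.2 ⟨(x - y, y), mem_product.2 ⟨h1 x hx' y hy' h hw, mem_Icc.2 l1⟩, ?_⟩
        show (x - y + y, y) = (x, y)
        rw [Nat.sub_add_cancel h.le]
      · apply mem_union_left
        apply mem_union_left
        exact mem_prP.2 ⟨⟨mem_Icc.2 ⟨k1.1, by omega⟩, mem_Icc.2 ⟨l1.1, by omega⟩⟩, k4, l4, h, hw⟩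
    · exfalso
      omega
    · by_cases hw : W (y - x)
      · apply mem_union_right
        apply mem_union_right
        refine mem_image.2 ⟨(y - x, x), mem_product.2 ⟨h2 x hx' y hy' h hw, mem_Icc.2 k1⟩, ?_⟩
        show (x, y - x + x) = (x, y)
        rw [Nat.sub_add_cancel h.le]
      · apply mem_union_left
        apply mem_union_right
        refine mem_image.2 ⟨(y, x), mem_prP.2 ⟨⟨mem_Icc.2 ⟨l1.1, by omega⟩,
          mem_Icc.2 ⟨k1.1, by omega⟩⟩, l4, k4, h, hw⟩, rfl⟩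
  have h3 := card_le_card hsub
  have h4 := card_union_le (BP ∪ BP.image Prod.swap) ((T ×ˢ Icc 1 q).image (fun z => (z.1 + z.2, z.2)) ∪
        (T' ×ˢ Icc 1 q).image (fun z => (z.2, z.1 + z.2)))
  have h5 := card_union_le BP (BP.image Prod.swap)
  have h6 := card_union_le ((T ×ˢ Icc 1 q).image (fun z : ℕ × ℕ => (z.1 + z.2, z.2)))
    ((T' ×ˢ Icc 1 q).image (fun z : ℕ × ℕ => (z.2, z.1 + z.2)))
  have h7 : (BP.image Prod.swap).card ≤ BP.card := card_image_le
  have h8 : ((T ×ˢ Icc 1 q).image (fun z : ℕ × ℕ => (z.1 + z.2, z.2))).card ≤ T.card * q := by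
    refine card_image_le.trans ?_
    rw [card_product, Nat.card_Icc, Nat.add_sub_cancel]
  have h9 : ((T' ×ˢ Icc 1 q).image (fun z : ℕ × ℕ => (z.2, z.1 + z.2))).card ≤ T'.card * q := by
    refine card_image_le.trans ?_
    rw [card_product, Nat.card_Icc, Nat.add_sub_cancel]
  omega

open Classical in
/-- clusters modulo nine -/
theorem cluster9 {W : ℕ → Prop} {R q U : ℕ} (h4 : H4 W R) (hR : 1 ≤ R) (s : Fin 4 → ℕ)
    (hs9 : ∀ g, s g < 9) (c c' : ℕ) (hs3 : ∀ g, s g % 3 = c ∨ s g % 3 = c')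
    (Ex : Finset ℕ) (hU : 9 * U * (4 * R) + 9 ≤ q)
    (hEx : ∀ x, 1 ≤ x → x ≤ q → W x → (∃ g g' : Fin 4, g < g' ∧ x % 9 = (s g' + 9 - s g) % 9) → x ∈ Ex)
    (hlt : (4 * R) ^ 2 * Ex.card < U) : False := by
  set X : ℕ → Fin 4 × Fin R → ℕ := fun u z => s z.1 + 9 * u * ((z.1 : ℕ) * R + (z.2 : ℕ)) with hX
  have hmono : ∀ u, 1 ≤ u → ∀ z z' : Fin 4 × Fin R, z.1 < z'.1 → X u z < X u z' := by
    intro u hu z z' hz
    have h1 := hs9 z.1
    have h2 : (z.1 : ℕ) * R + (z.2 : ℕ) + 1 ≤ (z'.1 : ℕ) * R + (z'.2 : ℕ) := by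
      have h3 : (z.1 : ℕ) + 1 ≤ z'.1 := hz
      have h4 : ((z.1 : ℕ) + 1) * R ≤ (z'.1 : ℕ) * R := Nat.mul_le_mul_right _ h3
      have h5 : ((z.1 : ℕ) + 1) * R = (z.1 : ℕ) * R + R := by ring
      have := z.2.isLt
      omega
    have h3 : 9 * u * ((z.1 : ℕ) * R + (z.2 : ℕ) + 1) ≤ 9 * u * ((z'.1 : ℕ) * R + (z'.2 : ℕ)) :=
      Nat.mul_le_mul_left _ h2
    have h5 : 9 * u * ((z.1 : ℕ) * R + (z.2 : ℕ) + 1) = 9 * u * ((z.1 : ℕ) * R + (z.2 : ℕ)) + 9 * u := by
      ring
    show s z.1 + 9 * u * ((z.1 : ℕ) * R + (z.2 : ℕ)) < s z'.1 + 9 * u * ((z'.1 : ℕ) * R + (z'.2 : ℕ))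
    omega
  have hinj : ∀ u, 1 ≤ u → Function.Injective (X u) := by
    intro u hu z z' h
    rcases lt_trichotomy z.1 z'.1 with h1 | h1 | h1
    · exact absurd h (hmono u hu z z' h1).ne
    · have h2 : s z.1 + 9 * u * ((z.1 : ℕ) * R + (z.2 : ℕ)) =
        s z'.1 + 9 * u * ((z'.1 : ℕ) * R + (z'.2 : ℕ)) := h
      rw [h1] at h2
      have h3 : 9 * u * ((z'.1 : ℕ) * R + (z.2 : ℕ)) = 9 * u * ((z'.1 : ℕ) * R + (z'.2 : ℕ)) := by omega
      have h5 := Nat.eq_of_mul_eq_mul_left (by omega) h3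
      exact Prod.ext h1 (Fin.ext (by omega))
    · exact absurd h (hmono u hu z' z h1).ne'
  have hex : ∀ u, ∃ z : (Fin 4 × Fin R) × (Fin 4 × Fin R), 1 ≤ u → z.1.1 ≠ z.2.1 ∧
      X u z.1 < X u z.2 ∧ W (X u z.2 - X u z.1) := by
    intro u
    by_cases hu : 1 ≤ u
    · obtain ⟨g, g', i, i', h1, h2, h3⟩ := h4 (fun g i => X u (g, i)) (hinj u hu) ⟨c, c', by
        intro g i
        have h5 : X u (g, i) = s g + 3 * (3 * u * ((g : ℕ) * R + (i : ℕ))) := by
          show s g + 9 * u * ((g : ℕ) * R + (i : ℕ)) = _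
          ring
        rw [h5]
        have := hs3 g
        omega⟩
      exact ⟨((g, i), (g', i')), fun _ => ⟨h1, h2, h3⟩⟩
    · have i0 : Fin R := ⟨0, hR⟩
      exact ⟨((0, i0), (0, i0)), fun h => absurd h hu⟩
  choose z hz using hex
  have hcard : (Icc 1 U).card ≤ ((univ : Finset ((Fin 4 × Fin R) × (Fin 4 × Fin R))) ×ˢ Ex).card := by
    refine card_le_card_of_injOn (fun u => (z u, X u (z u).2 - X u (z u).1)) ?_ ?_
    · intro u hu
      have hu' := mem_Icc.1 (mem_coe.1 hu)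
      obtain ⟨h1, h2, h3⟩ := hz u hu'.1
      have hgg : (z u).1.1 < (z u).2.1 := by
        rcases lt_or_gt_of_ne h1 with h | h
        · exact h
        · exact absurd h2 (not_lt.2 (hmono u hu'.1 _ _ h).le)
      refine mem_coe.2 (mem_product.2 ⟨mem_univ _, ?_⟩)
      show X u (z u).2 - X u (z u).1 ∈ Ex
      refine hEx _ ?_ ?_ h3 ⟨(z u).1.1, (z u).2.1, hgg, ?_⟩
      · omega
      · have h4 : X u (z u).2 ≤ q := by
          have k1 := (z u).2.1.isLt
          have k2 := (z u).2.2.isLt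
          have k3 : ((z u).2.1 : ℕ) * R + ((z u).2.2 : ℕ) ≤ 4 * R := by
            have : ((z u).2.1 : ℕ) * R ≤ 3 * R := Nat.mul_le_mul_right _ (by omega)
            omega
          have k4 : 9 * u * (((z u).2.1 : ℕ) * R + ((z u).2.2 : ℕ)) ≤ 9 * U * (4 * R) :=
            Nat.mul_le_mul (Nat.mul_le_mul_left _ hu'.2) k3
          have k5 := hs9 (z u).2.1
          show s (z u).2.1 + 9 * u * (((z u).2.1 : ℕ) * R + ((z u).2.2 : ℕ)) ≤ q
          omega
        omega
      · have e1 : X u (z u).2 = s (z u).2.1 + 9 * (u * (((z u).2.1 : ℕ) * R + ((z u).2.2 : ℕ))) := by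
          show s (z u).2.1 + 9 * u * (((z u).2.1 : ℕ) * R + ((z u).2.2 : ℕ)) = _
          ring
        have e2 : X u (z u).1 = s (z u).1.1 + 9 * (u * (((z u).1.1 : ℕ) * R + ((z u).1.2 : ℕ))) := by
          show s (z u).1.1 + 9 * u * (((z u).1.1 : ℕ) * R + ((z u).1.2 : ℕ)) = _
          ring
        have k5 := hs9 (z u).1.1
        rw [e1, e2] at h2 ⊢
        omega
    · intro u hu u' hu' h
      have hu1 := mem_Icc.1 (mem_coe.1 hu)
      have hu2 := mem_Icc.1 (mem_coe.1 hu')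
      obtain ⟨k1, k2, -⟩ := hz u hu1.1
      obtain ⟨l1, l2, -⟩ := hz u' hu2.1
      rw [Prod.mk.injEq] at h
      obtain ⟨h1, h2⟩ := h
      have h2' : X u (z u).2 - X u (z u).1 = X u' (z u').2 - X u' (z u').1 := h2
      rw [← h1] at h2' l2 l1
      have hgg : (z u).1.1 < (z u).2.1 := by
        rcases lt_or_gt_of_ne k1 with h | h
        · exact h
        · exact absurd k2 (not_lt.2 (hmono u hu1.1 _ _ h).le)
      have h3 : ((X u (z u).2 : ℕ) : ℤ) - ((X u (z u).1 : ℕ) : ℤ) =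
          ((X u' (z u).2 : ℕ) : ℤ) - ((X u' (z u).1 : ℕ) : ℤ) := by
        rw [← Nat.cast_sub k2.le, ← Nat.cast_sub l2.le, h2']
      simp only [hX] at h3
      push_cast at h3
      have h4 : ((9 : ℤ) * (((((z u).2.1 : ℕ) : ℤ) * R + (((z u).2.2 : ℕ) : ℤ)) -
          ((((z u).1.1 : ℕ) : ℤ) * R + (((z u).1.2 : ℕ) : ℤ)))) * ((u : ℤ) - u') = 0 := by
        linear_combination h3
      rcases mul_eq_zero.1 h4 with h5 | h5
      · exfalso
        have h6 : ((z u).1.1 : ℕ) * R + ((z u).1.2 : ℕ) < ((z u).2.1 : ℕ) * R + ((z u).2.2 : ℕ) := by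
          have h3 : ((z u).1.1 : ℕ) + 1 ≤ (z u).2.1 := hgg
          have h4 : (((z u).1.1 : ℕ) + 1) * R ≤ ((z u).2.1 : ℕ) * R := Nat.mul_le_mul_right _ h3
          have h5 : (((z u).1.1 : ℕ) + 1) * R = ((z u).1.1 : ℕ) * R + R := by ring
          have := (z u).1.2.isLt
          omega
        have h7 : ((((z u).1.1 : ℕ) * R + ((z u).1.2 : ℕ) : ℕ) : ℤ) <
            ((((z u).2.1 : ℕ) * R + ((z u).2.2 : ℕ) : ℕ) : ℤ) := by exact_mod_cast h6
        push_cast at h7
        linarith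
      · omega
  rw [Nat.card_Icc, card_product, card_univ, Fintype.card_prod, Fintype.card_prod, Fintype.card_fin,
    Fintype.card_fin, Nat.add_sub_cancel] at hcard
  have e : 4 * R * (4 * R) = (4 * R) ^ 2 := by ring
  rw [e] at hcard
  omega

end Pool.Agent.Q178.TG
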