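import Mathlib
import Pool.Agent.Q178.TG.Mod9

/-! Sums of three prime gaps: the classes modulo nine, conclusion (helper178). -/

set_option autoImplicit false

namespace Pool.Agent.Q178.TG

open Finset

open Classical in
/-- the `x` such that `3 x` is a member and `x` is not a multiple of three -/
noncomputable def E9 (W : ℕ → Prop) (q : ℕ) : Finset ℕ :=
  (Icc 1 q).filter (fun x => W (3 * x) ∧ ¬ 3 ∣ x)

open Classical in
theorem NC36 {W : ℕ → Prop} {q c : ℕ} (hc : c = 3 ∨ c = 6) : (NC W q c).card ≤ (E9 W q).card := by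
  refine card_le_card_of_injOn (fun x => x / 3) ?_ ?_
  · intro x hx
    obtain ⟨h1, h2, h3⟩ := mem_filter.1 (mem_coe.1 hx)
    rw [mem_Icc] at h1
    have e : 3 * (x / 3) = x := by omega
    refine mem_coe.2 (mem_filter.2 ⟨mem_Icc.2 ⟨?_, ?_⟩, ?_, ?_⟩)
    · show 1 ≤ x / 3
      omega
    · show x / 3 ≤ q
      omega
    · show W (3 * (x / 3))
      rw [e]; exact h2
    · show ¬ 3 ∣ x / 3
      omega
  · intro x hx y hy h
    obtain ⟨h1, h2, h3⟩ := mem_filter.1 (mem_coe.1 hx)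
    obtain ⟨k1, k2, k3⟩ := mem_filter.1 (mem_coe.1 hy)
    have h' : x / 3 = y / 3 := h
    omega

open Classical in
/-- a compatible pair of classes -/
theorem fin_pair {W : ℕ → Prop} {R q : ℕ} (h4 : H4 W R) (hR : 1 ≤ R) (b1 b2 : ℕ) (s : Fin 4 → ℕ)
    (hs9 : ∀ g, s g < 9) (c c' : ℕ) (hs3 : ∀ g, s g % 3 = c ∨ s g % 3 = c')
    (hs : ∀ g g' : Fin 4, g < g' → (s g' + 9 - s g) % 9 ≠ 0 ∧ (s g' + 9 - s g) % 9 ≠ b1 ∧
      (s g' + 9 - s g) % 9 ≠ b2)
    (k1 : ℝ) (hk1 : 0 < k1) (hk1R : k1 * (10000 * (R : ℝ) ^ 3) ≤ 1) (hq : 72 * R + 18 ≤ q)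
    (hE : ((E9 W q).card : ℝ) ≤ k1 * q)
    (hn : ∀ c ∈ ({1, 2, 4, 5, 7, 8} : Finset ℕ), c ≠ b1 → c ≠ b2 → ((NC W q c).card : ℝ) ≤ k1 * q) :
    False := by
  set Ex := (Icc 1 q).filter (fun x => W x ∧ x % 9 ≠ 0 ∧ x % 9 ≠ b1 ∧ x % 9 ≠ b2) with hEx
  have hRr : (1 : ℝ) ≤ R := by exact_mod_cast hR
  have hqr : (72 * R + 18 : ℝ) ≤ q := by exact_mod_cast hq
  have hq0 : (0 : ℝ) < q := by nlinarith
  set Bu := ((({1, 2, 4, 5, 7, 8} : Finset ℕ).filter (fun c => c ≠ b1 ∧ c ≠ b2)).biUnion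
      (fun c => NC W q c)) with hBu
  have hsub : Ex ⊆ Bu ∪ (NC W q 3 ∪ NC W q 6) := by
    intro x hx
    obtain ⟨h1, h2, h3, h5, h6⟩ := mem_filter.1 hx
    have hmem : x ∈ NC W q (x % 9) := mem_filter.2 ⟨h1, h2, rfl⟩
    have h7 : x % 9 < 9 := Nat.mod_lt _ (by norm_num)
    by_cases h8 : x % 9 = 3
    · exact mem_union_right _ (mem_union_left _ (h8 ▸ hmem))
    by_cases h9 : x % 9 = 6
    · exact mem_union_right _ (mem_union_right _ (h9 ▸ hmem))
    apply mem_union_left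
    refine mem_biUnion.2 ⟨x % 9, mem_filter.2 ⟨?_, h5, h6⟩, hmem⟩
    simp only [mem_insert, mem_singleton]
    omega
  have hc1 := (card_le_card hsub).trans (card_union_le _ _)
  have hc2 := card_union_le (NC W q 3) (NC W q 6)
  have hc3 := NC36 (W := W) (q := q) (c := 3) (Or.inl rfl)
  have hc4 := NC36 (W := W) (q := q) (c := 6) (Or.inr rfl)
  have hc5 : (Bu.card : ℝ) ≤ 6 * (k1 * q) := by
    have h1 : ((Bu.card : ℕ) : ℝ) ≤
      ∑ c ∈ (({1, 2, 4, 5, 7, 8} : Finset ℕ).filter (fun c => c ≠ b1 ∧ c ≠ b2)),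
        ((NC W q c).card : ℝ) := by
      exact_mod_cast card_biUnion_le
    have h2 : ∑ c ∈ (({1, 2, 4, 5, 7, 8} : Finset ℕ).filter (fun c => c ≠ b1 ∧ c ≠ b2)),
        ((NC W q c).card : ℝ) ≤
        ∑ c ∈ (({1, 2, 4, 5, 7, 8} : Finset ℕ).filter (fun c => c ≠ b1 ∧ c ≠ b2)), k1 * q := by
      apply sum_le_sum
      intro c hc
      obtain ⟨h3, h5, h6⟩ := mem_filter.1 hc
      exact hn c h3 h5 h6
    rw [sum_const, nsmul_eq_mul] at h2
    have h3 : (((({1, 2, 4, 5, 7, 8} : Finset ℕ).filter (fun c => c ≠ b1 ∧ c ≠ b2)).card : ℕ) : ℝ) ≤ 6 := by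
      have : (({1, 2, 4, 5, 7, 8} : Finset ℕ).filter (fun c => c ≠ b1 ∧ c ≠ b2)).card ≤ 6 :=
        (card_filter_le _ _).trans (by decide)
      exact_mod_cast this
    refine (h1.trans h2).trans ?_
    exact mul_le_mul_of_nonneg_right h3 (by positivity)
  have hExc : (Ex.card : ℝ) ≤ 8 * (k1 * q) := by
    have h1 : (Ex.card : ℝ) ≤ (Bu.card : ℝ) + ((E9 W q).card + (E9 W q).card) := by
      exact_mod_cast hc1.trans (by omega)
    linarith
  set U := (q - 9) / (36 * R) with hU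
  have hR36 : 0 < 36 * R := by omega
  have hUq : 9 * U * (4 * R) + 9 ≤ q := by
    have h1 : (36 * R) * U ≤ q - 9 := Nat.mul_div_le _ _
    have h2 : 9 * U * (4 * R) = (36 * R) * U := by ring
    rw [h2]
    omega
  have hExx : ∀ x, 1 ≤ x → x ≤ q → W x →
      (∃ g g' : Fin 4, g < g' ∧ x % 9 = (s g' + 9 - s g) % 9) → x ∈ Ex := by
    rintro x hx1 hx2 hx3 ⟨g, g', hg, hx4⟩
    obtain ⟨m1, m2, m3⟩ := hs g g' hg
    rw [← hx4] at m1 m2 m3
    exact mem_filter.2 ⟨mem_Icc.2 ⟨hx1, hx2⟩, hx3, m1, m2, m3⟩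
  have hUlt : (4 * R) ^ 2 * Ex.card < U := by
    have h1 := natdiv_lb (q - 9) (36 * R) hR36
    rw [← hU] at h1
    have h2 : ((q - 9 : ℕ) : ℝ) = q - 9 := by
      rw [Nat.cast_sub (by omega)]; simp
    rw [h2] at h1
    push_cast at h1
    have h3 : (q : ℝ) / (72 * R) ≤ ((q : ℝ) - 9) / (36 * R) - 1 := by
      have e1 : (q : ℝ) / (72 * R) = (q / (36 * R)) / 2 := by rw [div_div]; congr 1; ring
      have hw : (72 * (R : ℝ) + 18) / (36 * R) ≤ q / (36 * R) :=
        div_le_div_of_nonneg_right hqr (by positivity)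
      have e2 : (72 * (R : ℝ) + 18) / (36 * R) = 2 + 2 * (9 / (36 * R)) := by
        field_simp
        ring
      rw [e2] at hw
      rw [e1, sub_div]
      linarith
    have h5 : (16 * (R : ℝ) ^ 2) * (8 * (k1 * q)) < (q : ℝ) / (72 * R) := by
      rw [lt_div_iff₀ (by positivity)]
      have e : (16 * (R : ℝ) ^ 2) * (8 * (k1 * q)) * (72 * R) =
        (k1 * (10000 * (R : ℝ) ^ 3)) * q * (9216 / 10000) := by ring
      rw [e]
      nlinarith
    have h6 : (((4 * R) ^ 2 * Ex.card : ℕ) : ℝ) < U := by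
      push_cast
      calc (4 * (R : ℝ)) ^ 2 * (Ex.card : ℝ) ≤ (16 * (R : ℝ) ^ 2) * (8 * (k1 * q)) := by
            have e : (4 * (R : ℝ)) ^ 2 = 16 * (R : ℝ) ^ 2 := by ring
            rw [e]
            exact mul_le_mul_of_nonneg_left hExc (by positivity)
        _ < (q : ℝ) / (72 * R) := h5
        _ ≤ ((q : ℝ) - 9) / (36 * R) - 1 := h3
        _ < U := h1
    exact_mod_cast h6
  exact cluster9 (U := U) h4 hR s hs9 c c' hs3 Ex hUq hExx hUlt

theorem small_of_mul {a b κ q : ℝ} (hκ : 0 ≤ κ * q)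
    (h : a * b ≤ κ ^ 2 * q ^ 2) : a ≤ κ * q ∨ b ≤ κ * q := by
  by_contra hcon
  push Not at hcon
  have h1 : (κ * q) * (κ * q) < a * b := mul_lt_mul'' hcon.1 hcon.2 hκ hκ
  nlinarith

open Classical in
/-- the six compatible pairs -/
theorem compat {W : ℕ → Prop} {R q : ℕ} (h4 : H4 W R) (hR : 1 ≤ R)
    (k1 : ℝ) (hk1 : 0 < k1) (hk1R : k1 * (10000 * (R : ℝ) ^ 3) ≤ 1) (hq : 72 * R + 18 ≤ q)
    (hE : ((E9 W q).card : ℝ) ≤ k1 * q) (b1 b2 : ℕ)
    (hb : (b1, b2) ∈ ([(1, 2), (4, 8), (7, 5), (4, 2), (1, 5), (7, 8)] : List (ℕ × ℕ)))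
    (hn : ∀ c ∈ ({1, 2, 4, 5, 7, 8} : Finset ℕ), c ≠ b1 → c ≠ b2 → ((NC W q c).card : ℝ) ≤ k1 * q) :
    False := by
  simp only [List.mem_cons, Prod.mk.injEq, List.not_mem_nil, or_false] at hb
  rcases hb with ⟨rfl, rfl⟩ | ⟨rfl, rfl⟩ | ⟨rfl, rfl⟩ | ⟨rfl, rfl⟩ | ⟨rfl, rfl⟩ | ⟨rfl, rfl⟩
  · exact fin_pair h4 hR 1 2 ![4, 3, 1, 0] (by decide) 0 1 (by decide) (by decide) k1 hk1 hk1R hq hE hn
  · exact fin_pair h4 hR 4 8 ![7, 3, 4, 0] (by decide) 0 1 (by decide) (by decide) k1 hk1 hk1R hq hE hn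
  · exact fin_pair h4 hR 7 5 ![1, 3, 7, 0] (by decide) 0 1 (by decide) (by decide) k1 hk1 hk1R hq hE hn
  · exact fin_pair h4 hR 4 2 ![8, 6, 2, 0] (by decide) 0 2 (by decide) (by decide) k1 hk1 hk1R hq hE hn
  · exact fin_pair h4 hR 1 5 ![2, 6, 5, 0] (by decide) 0 2 (by decide) (by decide) k1 hk1 hk1R hq hE hn
  · exact fin_pair h4 hR 7 8 ![5, 6, 8, 0] (by decide) 0 2 (by decide) (by decide) k1 hk1 hk1R hq hE hn

open Classical in
/-- **the classes modulo nine** -/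
theorem mod9 {W : ℕ → Prop} {R : ℕ} (h4 : H4 W R) (hR : 1 ≤ R) :
    ∃ ε : ℝ, 0 < ε ∧ ∀ q : ℕ, 72 * R + 18 ≤ q →
      ((prP (S3 W) (fun x y => y < x ∧ ¬ W (x - y)) q).card : ℝ) ≤ ε * q ^ 2 →
      ((E9 W q).card : ℝ) ≤ ε * q → False := by
  have hRr : (1 : ℝ) ≤ R := by exact_mod_cast hR
  have hR3 : (1 : ℝ) ≤ (R : ℝ) ^ 3 := one_le_pow₀ hRr
  set k1 : ℝ := 1 / (10000 * (R : ℝ) ^ 3) with hk1d
  have hk1 : 0 < k1 := by positivity
  have hk1R : k1 * (10000 * (R : ℝ) ^ 3) ≤ 1 := by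
    rw [hk1d]; field_simp; norm_num
  have hk11 : k1 ≤ 1 := by
    rw [hk1d, div_le_one (by positivity)]
    linarith
  set κ : ℝ := k1 ^ 2 / 4 with hκd
  have hκ : 0 < κ := by positivity
  have hκk : κ ≤ k1 := by rw [hκd]; nlinarith
  have hκ1 : κ ≤ 1 := hκk.trans hk11
  refine ⟨κ ^ 2 / 4, by positivity, fun q hq hBP hE => ?_⟩
  have hqr : (72 * R + 18 : ℝ) ≤ q := by exact_mod_cast hq
  have hq0 : (0 : ℝ) < q := by nlinarith
  set b : ℝ := ((prP (S3 W) (fun x y => y < x ∧ ¬ W (x - y)) q).card : ℝ) with hb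
  set e9 : ℝ := ((E9 W q).card : ℝ) with he9
  have hEk : e9 ≤ k1 * q := by
    refine hE.trans (mul_le_mul_of_nonneg_right ?_ hq0.le)
    nlinarith
  set n : ℕ → ℝ := fun c => ((NC W q c).card : ℝ) with hn
  have hn0 : ∀ c, 0 ≤ n c := fun c => Nat.cast_nonneg _
  have hκq : 0 ≤ κ * q := by positivity
  -- two classes that agree modulo three
  have hAA : ∀ c c' : ℕ, c < 9 → c' < 9 → ¬ 3 ∣ c → c ≠ c' → c % 3 = c' % 3 →
      n c ≤ κ * q ∨ n c' ≤ κ * q := by
    intro c c' hc9 hc9' hc hne hcc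
    apply small_of_mul hκq
    have hT : ((E9 W q).image (fun t => 3 * t)).card ≤ (E9 W q).card := card_image_le
    have key : ∀ x y : ℕ, y < x → x ≤ q → x % 3 = y % 3 → x % 9 ≠ y % 9 → W (x - y) →
        x - y ∈ (E9 W q).image (fun t => 3 * t) := by
      intro x y h1 h2 h3 h5 h6
      have e : 3 * ((x - y) / 3) = x - y := by omega
      refine mem_image.2 ⟨(x - y) / 3, mem_filter.2 ⟨mem_Icc.2 ⟨by omega, by omega⟩, ?_, by omega⟩, e⟩
      rw [e]; exact h6
    have h1 := classes (W := W) (q := q) (c := c) (c' := c') ((E9 W q).image (fun t => 3 * t))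
      ((E9 W q).image (fun t => 3 * t)) hc (by omega) (by
        intro x hx y hy hlt hw
        obtain ⟨k1, k2, k3⟩ := mem_filter.1 hx
        obtain ⟨l1, l2, l3⟩ := mem_filter.1 hy
        rw [mem_Icc] at k1 l1
        exact key x y hlt k1.2 (by omega) (by omega) hw) (by
        intro x hx y hy hlt hw
        obtain ⟨k1, k2, k3⟩ := mem_filter.1 hx
        obtain ⟨l1, l2, l3⟩ := mem_filter.1 hy
        rw [mem_Icc] at k1 l1
        exact key y x hlt l1.2 (by omega) (by omega) hw) hne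
    have h2 : n c * n c' ≤ 2 * b + e9 * q + e9 * q := by
      have h3 : (((NC W q c).card * (NC W q c').card : ℕ) : ℝ) ≤
        ((2 * (prP (S3 W) (fun x y => y < x ∧ ¬ W (x - y)) q).card +
          (E9 W q).card * q + (E9 W q).card * q : ℕ) : ℝ) := by
        rw [Nat.cast_le]
        refine h1.trans ?_
        have := Nat.mul_le_mul_right q hT
        omega
      push_cast at h3
      exact h3
    have h3 : e9 * q ≤ (κ ^ 2 / 4 * q) * q := mul_le_mul_of_nonneg_right hE hq0.le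
    nlinarith
  -- two classes that do not agree modulo three
  have hBB : ∀ c c' : ℕ, c < 9 → c' < 9 → ¬ 3 ∣ c → ¬ 3 ∣ c' → c ≠ c' →
      n c * n c' ≤ 2 * b + n ((c + 9 - c') % 9) * q + n ((c' + 9 - c) % 9) * q := by
    intro c c' hc9 hc9' hc hc' hne
    have h1 := classes (W := W) (q := q) (c := c) (c' := c') (NC W q ((c + 9 - c') % 9))
      (NC W q ((c' + 9 - c) % 9)) hc hc' (by
        intro x hx y hy hlt hw
        obtain ⟨k1, k2, k3⟩ := mem_filter.1 hx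
        obtain ⟨l1, l2, l3⟩ := mem_filter.1 hy
        rw [mem_Icc] at k1 l1
        exact mem_filter.2 ⟨mem_Icc.2 ⟨by omega, by omega⟩, hw, by omega⟩) (by
        intro x hx y hy hlt hw
        obtain ⟨k1, k2, k3⟩ := mem_filter.1 hx
        obtain ⟨l1, l2, l3⟩ := mem_filter.1 hy
        rw [mem_Icc] at k1 l1
        exact mem_filter.2 ⟨mem_Icc.2 ⟨by omega, by omega⟩, hw, by omega⟩) hne
    have h3 : (((NC W q c).card * (NC W q c').card : ℕ) : ℝ) ≤
        ((2 * (prP (S3 W) (fun x y => y < x ∧ ¬ W (x - y)) q).card +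
          (NC W q ((c + 9 - c') % 9)).card * q + (NC W q ((c' + 9 - c) % 9)).card * q : ℕ) : ℝ) := by
      rw [Nat.cast_le]
      exact h1
    push_cast at h3
    exact h3
  -- the large classes
  obtain ⟨a1, ha1, hs1⟩ : ∃ a1, (a1 = 1 ∨ a1 = 4 ∨ a1 = 7) ∧
      ∀ c, (c = 1 ∨ c = 4 ∨ c = 7) → c ≠ a1 → n c ≤ κ * q := by
    have h14 := hAA 1 4 (by norm_num) (by norm_num) (by norm_num) (by norm_num) (by norm_num)
    have h17 := hAA 1 7 (by norm_num) (by norm_num) (by norm_num) (by norm_num) (by norm_num)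
    have h47 := hAA 4 7 (by norm_num) (by norm_num) (by norm_num) (by norm_num) (by norm_num)
    by_cases h1 : n 1 ≤ κ * q
    · rcases h47 with h | h
      · refine ⟨7, by norm_num, ?_⟩
        rintro c (rfl | rfl | rfl) hc
        · exact h1
        · exact h
        · exact absurd rfl hc
      · refine ⟨4, by norm_num, ?_⟩
        rintro c (rfl | rfl | rfl) hc
        · exact h1
        · exact absurd rfl hc
        · exact h
    · refine ⟨1, by norm_num, ?_⟩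
      rintro c (rfl | rfl | rfl) hc
      · exact absurd rfl hc
      · exact h14.resolve_left h1
      · exact h17.resolve_left h1
  obtain ⟨a2, ha2, hs2⟩ : ∃ a2, (a2 = 2 ∨ a2 = 5 ∨ a2 = 8) ∧
      ∀ c, (c = 2 ∨ c = 5 ∨ c = 8) → c ≠ a2 → n c ≤ κ * q := by
    have h14 := hAA 2 5 (by norm_num) (by norm_num) (by norm_num) (by norm_num) (by norm_num)
    have h17 := hAA 2 8 (by norm_num) (by norm_num) (by norm_num) (by norm_num) (by norm_num)
    have h47 := hAA 5 8 (by norm_num) (by norm_num) (by norm_num) (by norm_num) (by norm_num)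
    by_cases h1 : n 2 ≤ κ * q
    · rcases h47 with h | h
      · refine ⟨8, by norm_num, ?_⟩
        rintro c (rfl | rfl | rfl) hc
        · exact h1
        · exact h
        · exact absurd rfl hc
      · refine ⟨5, by norm_num, ?_⟩
        rintro c (rfl | rfl | rfl) hc
        · exact h1
        · exact absurd rfl hc
        · exact h
    · refine ⟨2, by norm_num, ?_⟩
      rintro c (rfl | rfl | rfl) hc
      · exact absurd rfl hc
      · exact h14.resolve_left h1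
      · exact h17.resolve_left h1
  have hκk' : κ * q ≤ k1 * q := mul_le_mul_of_nonneg_right hκk hq0.le
  -- reduction to compatible pairs
  have fin : ∀ b1 b2 : ℕ, (b1, b2) ∈ ([(1, 2), (4, 8), (7, 5), (4, 2), (1, 5), (7, 8)] :
      List (ℕ × ℕ)) → (∀ c, (c = 1 ∨ c = 4 ∨ c = 7) → c ≠ b1 → n c ≤ k1 * q) →
      (∀ c, (c = 2 ∨ c = 5 ∨ c = 8) → c ≠ b2 → n c ≤ k1 * q) → False := by
    intro b1 b2 hbb h1 h2
    refine compat h4 hR k1 hk1 hk1R hq hEk b1 b2 hbb ?_
    intro c hc hc1 hc2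
    simp only [mem_insert, mem_singleton] at hc
    rcases hc with rfl | rfl | rfl | rfl | rfl | rfl
    · exact h1 _ (by norm_num) hc1
    · exact h2 _ (by norm_num) hc2
    · exact h1 _ (by norm_num) hc1
    · exact h2 _ (by norm_num) hc2
    · exact h1 _ (by norm_num) hc1
    · exact h2 _ (by norm_num) hc2
  have hs1' : ∀ c, (c = 1 ∨ c = 4 ∨ c = 7) → c ≠ a1 → n c ≤ k1 * q :=
    fun c h1 h2 => (hs1 c h1 h2).trans hκk'
  have hs2' : ∀ c, (c = 2 ∨ c = 5 ∨ c = 8) → c ≠ a2 → n c ≤ k1 * q :=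
    fun c h1 h2 => (hs2 c h1 h2).trans hκk'
  by_cases h9 : a1 + a2 = 9
  · -- the incompatible pairs
    have h1 := hBB a1 a2 (by omega) (by omega) (by omega) (by omega) (by omega)
    have h2 : n ((a1 + 9 - a2) % 9) ≤ κ * q := hs2 _ (by omega) (by omega)
    have h3 : n ((a2 + 9 - a1) % 9) ≤ κ * q := hs1 _ (by omega) (by omega)
    have h5 : n a1 * n a2 ≤ k1 ^ 2 * q ^ 2 := by
      have h6 : n ((a1 + 9 - a2) % 9) * q ≤ (κ * q) * q := mul_le_mul_of_nonneg_right h2 hq0.le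
      have h7 : n ((a2 + 9 - a1) % 9) * q ≤ (κ * q) * q := mul_le_mul_of_nonneg_right h3 hq0.le
      have h8 : n a1 * n a2 ≤ (κ ^ 2 / 2 + 2 * κ) * q ^ 2 := by nlinarith
      refine h8.trans (mul_le_mul_of_nonneg_right ?_ (by positivity))
      have h10 : κ ^ 2 / 2 ≤ κ / 2 := by nlinarith
      have h11 : κ = k1 ^ 2 / 4 := hκd
      nlinarith
    have hkq : 0 ≤ k1 * q := by positivity
    rcases small_of_mul hkq h5 with h6 | h6
    · have hall : ∀ c, (c = 1 ∨ c = 4 ∨ c = 7) → n c ≤ k1 * q := by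
        intro c hc
        by_cases hca : c = a1
        · rw [hca]; exact h6
        · exact hs1' c hc hca
      rcases ha2 with rfl | rfl | rfl
      · exact fin 1 2 (by simp) (fun c hc _ => hall c hc) hs2'
      · exact fin 1 5 (by simp) (fun c hc _ => hall c hc) hs2'
      · exact fin 4 8 (by simp) (fun c hc _ => hall c hc) hs2'
    · have hall : ∀ c, (c = 2 ∨ c = 5 ∨ c = 8) → n c ≤ k1 * q := by
        intro c hc
        by_cases hca : c = a2
        · rw [hca]; exact h6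
        · exact hs2' c hc hca
      rcases ha1 with rfl | rfl | rfl
      · exact fin 1 2 (by simp) hs1' (fun c hc _ => hall c hc)
      · exact fin 4 2 (by simp) hs1' (fun c hc _ => hall c hc)
      · exact fin 7 5 (by simp) hs1' (fun c hc _ => hall c hc)
  · refine fin a1 a2 ?_ hs1' hs2'
    rcases ha1 with rfl | rfl | rfl <;> rcases ha2 with rfl | rfl | rfl <;> first | (simp; done) | (exact absurd rfl h9)

end Pool.Agent.Q178.TG
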