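import Mathlib
import Pool.Agent.Q178.TG.Mod9b

/-! Sums of three prime gaps: the final counts (helper178). -/

set_option autoImplicit false

namespace Pool.Agent.Q178.TG

open Finset

open Classical in
/-- the representations with three members of `W`, two of them multiples of three -/
noncomputable def T3 (W : ℕ → Prop) (ν : ℕ) : Finset (ℕ × ℕ) :=
  ((Icc 1 ν) ×ˢ (Icc 1 ν)).filter (fun z => W z.1 ∧ W z.2 ∧ 3 ∣ z.1 ∧ 3 ∣ z.2 ∧ z.1 + z.2 < ν ∧
    W (ν - z.1 - z.2))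

open Classical in
/-- the representations with three members of `W` -/
noncomputable def All3 (W : ℕ → Prop) (ν : ℕ) : Finset (ℕ × ℕ) :=
  ((Icc 1 ν) ×ˢ (Icc 1 ν)).filter (fun z => W z.1 ∧ W z.2 ∧ z.1 + z.2 < ν ∧ W (ν - z.1 - z.2))

open Classical in
/-- the representations with `g` -/
noncomputable def T2 (W : ℕ → Prop) (ν g : ℕ) : Finset ℕ :=
  (Icc 1 ν).filter (fun x => W x ∧ 3 ∣ x ∧ x + g < ν ∧ 3 ∣ ν - g - x ∧ W (ν - g - x))

theorem T3_sub (W : ℕ → Prop) (ν : ℕ) : T3 W ν ⊆ All3 W ν := by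
  classical
  intro z hz
  obtain ⟨h1, h2, h3, -, -, h4, h5⟩ := mem_filter.1 hz
  exact mem_filter.2 ⟨h1, h2, h3, h4, h5⟩

open Classical in
theorem rep_lin {W : ℕ → Prop} {d L q ν g : ℕ} (hd : 1 ≤ d)
    (hsyn : ∀ x, ∃ k, W (3 * (d * k)) ∧ x < k ∧ k ≤ x + L) (hq : 1 ≤ q) (hν : 96 * q < ν)
    (hg : g ≤ 9) (hdvd : 3 * d ∣ ν - g) :
    (q / d) / L ≤ (T2 W ν g).card + ((Icc 1 (q / d)).filter (fun j => ¬ W (3 * (d * j)))).card := by
  obtain ⟨M, hM⟩ := hdvd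
  have hqd : d * (q / d) ≤ q := Nat.mul_div_le _ _
  have hM' : 3 * (d * M) = ν - g := by rw [hM]; ring
  have hlt : q / d < M := by
    by_contra h
    push Not at h
    have h1 : d * M ≤ d * (q / d) := Nat.mul_le_mul_left _ h
    omega
  have h1 := count_rep (V := fun k => W (3 * k)) hsyn hlt
  refine h1.trans (Nat.add_le_add_right ?_ _)
  refine card_le_card_of_injOn (fun j => 3 * (d * j)) ?_ ?_
  · intro j hj
    obtain ⟨h2, h3, h4⟩ := mem_filter.1 (mem_coe.1 hj)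
    rw [mem_Icc] at h2
    have h5 : d * j ≤ d * (q / d) := Nat.mul_le_mul_left _ h2.2
    have h6 : 1 ≤ d * j := Nat.mul_pos hd h2.1
    have h7 : d * (M - j) = d * M - d * j := Nat.mul_sub _ _ _
    have h8 : ν - g - 3 * (d * j) = 3 * (d * (M - j)) := by
      rw [h7]
      omega
    refine mem_coe.2 (mem_filter.2 ⟨mem_Icc.2 ⟨?_, ?_⟩, h3, dvd_mul_right _ _, ?_, ?_, ?_⟩)
    · show 1 ≤ 3 * (d * j)
      omega
    · show 3 * (d * j) ≤ ν
      omega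
    · show 3 * (d * j) + g < ν
      omega
    · show 3 ∣ ν - g - 3 * (d * j)
      rw [h8]
      exact dvd_mul_right _ _
    · show W (ν - g - 3 * (d * j))
      rw [h8]
      exact h4
  · intro j _ j' _ h
    have h2 : 3 * (d * j) = 3 * (d * j') := h
    exact Nat.eq_of_mul_eq_mul_left hd (by omega)

open Classical in
theorem rep_quad {W : ℕ → Prop} {d L q ν b : ℕ} (hd : 1 ≤ d)
    (hsyn : ∀ x, ∃ k, W (3 * (d * k)) ∧ x < k ∧ k ≤ x + L) (hν : 96 * q < ν)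
    (hdvd : 3 * d ∣ ν)
    (hb : ((Icc 1 (q / d)).filter (fun j => ¬ W (3 * (d * j)))).card ≤ b) :
    (q / d - b) * ((q / d) / L - b) ≤ (T3 W ν).card := by
  obtain ⟨M, hM⟩ := hdvd
  have hqd : d * (q / d) ≤ q := Nat.mul_div_le _ _
  have hM' : 3 * (d * M) = ν := by rw [hM]; ring
  set G := (Icc 1 (q / d)).filter (fun j => W (3 * (d * j))) with hG
  have hGc : q / d - b ≤ G.card := by
    have h1 : (Icc 1 (q / d)) ⊆ G ∪ (Icc 1 (q / d)).filter (fun j => ¬ W (3 * (d * j))) := by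
      intro j hj
      by_cases h : W (3 * (d * j))
      · exact mem_union_left _ (mem_filter.2 ⟨hj, h⟩)
      · exact mem_union_right _ (mem_filter.2 ⟨hj, h⟩)
    have h2 := (card_le_card h1).trans (card_union_le _ _)
    rw [Nat.card_Icc] at h2
    omega
  have key : ∀ i ∈ G, (q / d) / L - b ≤ ((Icc 1 (q / d)).filter
      (fun j => W (3 * (d * j)) ∧ W (3 * (d * (M - i - j))))).card := by
    intro i hi
    obtain ⟨h1, h2⟩ := mem_filter.1 hi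
    rw [mem_Icc] at h1
    have hlt : q / d < M - i := by
      by_contra h
      push Not at h
      have h3 : M ≤ 2 * (q / d) := by omega
      have h4 : d * M ≤ d * (2 * (q / d)) := Nat.mul_le_mul_left _ h3
      have h5 : d * (2 * (q / d)) = 2 * (d * (q / d)) := by ring
      omega
    have h3 := count_rep (V := fun k => W (3 * k)) hsyn hlt
    omega
  have h1 : (q / d - b) * ((q / d) / L - b) ≤ ∑ i ∈ G, ((Icc 1 (q / d)).filter
      (fun j => W (3 * (d * j)) ∧ W (3 * (d * (M - i - j))))).card := by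
    refine (Nat.mul_le_mul_right _ hGc).trans ?_
    rw [← smul_eq_mul]
    exact card_nsmul_le_sum _ _ _ key
  refine h1.trans ?_
  rw [← card_sigma]
  refine card_le_card_of_injOn (fun z => (3 * (d * z.1), 3 * (d * z.2))) ?_ ?_
  · rintro ⟨i, j⟩ hz
    obtain ⟨h3, h4⟩ := mem_sigma.1 (mem_coe.1 hz)
    obtain ⟨h5, h6⟩ := mem_filter.1 h3
    obtain ⟨h7, h8, h9⟩ := mem_filter.1 h4
    have h5' : 1 ≤ i ∧ i ≤ q / d := mem_Icc.1 h5
    have h7' : 1 ≤ j ∧ j ≤ q / d := mem_Icc.1 h7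
    have m1 : d * i ≤ d * (q / d) := Nat.mul_le_mul_left _ h5'.2
    have m2 : d * j ≤ d * (q / d) := Nat.mul_le_mul_left _ h7'.2
    have m3 : 1 ≤ d * i := Nat.mul_pos hd h5'.1
    have m4 : 1 ≤ d * j := Nat.mul_pos hd h7'.1
    have m5 : d * (M - i - j) = d * M - d * i - d * j := by
      rw [Nat.mul_sub, Nat.mul_sub]
    have m6 : ν - 3 * (d * i) - 3 * (d * j) = 3 * (d * (M - i - j)) := by
      rw [m5]
      omega
    refine mem_coe.2 (mem_filter.2 ⟨mem_product.2 ⟨mem_Icc.2 ⟨?_, ?_⟩, mem_Icc.2 ⟨?_, ?_⟩⟩,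
      h6, h8, dvd_mul_right _ _, dvd_mul_right _ _, ?_, ?_⟩)
    · show 1 ≤ 3 * (d * i)
      omega
    · show 3 * (d * i) ≤ ν
      omega
    · show 1 ≤ 3 * (d * j)
      omega
    · show 3 * (d * j) ≤ ν
      omega
    · show 3 * (d * i) + 3 * (d * j) < ν
      omega
    · show W (ν - 3 * (d * i) - 3 * (d * j))
      rw [m6]
      exact h9
  · rintro ⟨i, j⟩ _ ⟨i', j'⟩ _ h
    rw [Prod.mk.injEq] at h
    obtain ⟨h3, h4⟩ := h
    have h3' : 3 * (d * i) = 3 * (d * i') := h3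
    have h4' : 3 * (d * j) = 3 * (d * j') := h4
    have h5 : i = i' := Nat.eq_of_mul_eq_mul_left hd (by omega)
    have h6 : j = j' := Nat.eq_of_mul_eq_mul_left hd (by omega)
    subst h5 h6
    rfl

open Classical in
theorem prP_le (W : ℕ → Prop) {ν q : ℕ} (hν : 96 * q < ν) :
    (prP (fun k => W (3 * k)) (fun x y => W (ν - 3 * x - 3 * y)) q).card ≤ (T3 W ν).card := by
  refine card_le_card_of_injOn (fun z => (3 * z.1, 3 * z.2)) ?_ ?_
  · intro z hz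
    obtain ⟨⟨h1, h2⟩, h3, h4, h5⟩ := mem_prP.1 (mem_coe.1 hz)
    rw [mem_Icc] at h1 h2
    refine mem_coe.2 (mem_filter.2 ⟨mem_product.2 ⟨mem_Icc.2 ⟨?_, ?_⟩, mem_Icc.2 ⟨?_, ?_⟩⟩,
      h3, h4, dvd_mul_right _ _, dvd_mul_right _ _, ?_, h5⟩)
    · show 1 ≤ 3 * z.1
      omega
    · show 3 * z.1 ≤ ν
      omega
    · show 1 ≤ 3 * z.2
      omega
    · show 3 * z.2 ≤ ν
      omega
    · show 3 * z.1 + 3 * z.2 < ν
      omega
  · intro z _ z' _ h
    rw [Prod.mk.injEq] at h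
    exact Prod.ext (by omega) (by omega)

open Classical in
theorem prP_le2 (W : ℕ → Prop) {ν q : ℕ} (hν : 96 * q < ν) :
    (prP (S3 W) (fun x y => W (ν - x - y)) q).card ≤ (All3 W ν).card := by
  apply card_le_card
  intro z hz
  obtain ⟨⟨h1, h2⟩, h3, h4, h5⟩ := mem_prP.1 hz
  rw [mem_Icc] at h1 h2
  exact mem_filter.2 ⟨mem_product.2 ⟨mem_Icc.2 ⟨by omega, by omega⟩,
    mem_Icc.2 ⟨by omega, by omega⟩⟩, h3.1, h4.1, by omega, h5⟩

/-- numerical bounds -/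
theorem numb {d L Lm q b : ℕ} (hd : 1 ≤ d) (hd3 : d ≤ 3) (hL : 1 ≤ L) (hLm : L ≤ Lm)
    (hq : 24 * Lm ≤ q) (hb : (b : ℝ) ≤ 1 / (8 * (Lm : ℝ)) * q) :
    (q : ℝ) / (8 * Lm) ≤ (((q / d) / L - b : ℕ) : ℝ) ∧ (q : ℝ) / 8 ≤ ((q / d - b : ℕ) : ℝ) := by
  have hL0 : (1 : ℝ) ≤ L := by exact_mod_cast hL
  have hLmr : (L : ℝ) ≤ Lm := by exact_mod_cast hLm
  have hLm0 : (0 : ℝ) < Lm := by linarith
  have hqr : (24 * Lm : ℝ) ≤ q := by exact_mod_cast hq
  have hq0 : (0 : ℝ) < q := by nlinarith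
  have h1 : (q : ℝ) / 3 - 1 ≤ ((q / d : ℕ) : ℝ) := by
    have h2 := (natdiv_lb q 3 (by norm_num)).le
    have h3 : ((q / 3 : ℕ) : ℝ) ≤ ((q / d : ℕ) : ℝ) := by
      exact_mod_cast Nat.div_le_div_left hd3 hd
    push_cast at h2
    linarith
  have h2 : (q : ℝ) / (3 * Lm) - 2 ≤ (((q / d) / L : ℕ) : ℝ) := by
    have h3 := (natdiv_lb (q / d) L hL).le
    have h4 : ((q : ℝ) / 3 - 1) / Lm ≤ ((q / d : ℕ) : ℝ) / L := by
      have h5 : ((q : ℝ) / 3 - 1) / Lm ≤ ((q : ℝ) / 3 - 1) / L := by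
        apply div_le_div_of_nonneg_left _ (by linarith) hLmr
        nlinarith
      exact h5.trans (div_le_div_of_nonneg_right h1 (by linarith))
    have e : ((q : ℝ) / 3 - 1) / Lm = q / (3 * Lm) - 1 / Lm := by
      rw [sub_div, div_div]
    have h6 : (1 : ℝ) / Lm ≤ 1 := by rw [div_le_one hLm0]; linarith
    linarith
  set z : ℝ := (q : ℝ) / (24 * Lm) with hz
  have hz1 : 1 ≤ z := by rw [hz, le_div_iff₀ (by positivity)]; linarith
  have e1 : (q : ℝ) / (3 * Lm) = 8 * z := by rw [hz]; field_simp; norm_num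
  have e2 : (q : ℝ) / (8 * Lm) = 3 * z := by rw [hz]; field_simp; norm_num
  have e3 : 1 / (8 * (Lm : ℝ)) * q = 3 * z := by rw [hz]; field_simp; norm_num
  have hcast : ∀ u : ℕ, (u : ℝ) - b ≤ ((u - b : ℕ) : ℝ) := by
    intro u
    have h7 : u ≤ (u - b) + b := by omega
    have h8 : (u : ℝ) ≤ ((u - b : ℕ) : ℝ) + b := by exact_mod_cast h7
    linarith
  constructor
  · rw [e2]
    rw [e1] at h2
    rw [e3] at hb
    have := hcast ((q / d) / L)
    linarith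
  · have := hcast (q / d)
    have h3 : 3 * z ≤ q / 8 := by
      rw [← e2]
      apply div_le_div_of_nonneg_left hq0.le (by norm_num)
      linarith
    rw [e3] at hb
    have h4 : (24 : ℝ) ≤ q := by linarith
    linarith

theorem q_bounds {ν : ℕ} (hν : 200 ≤ ν) : 96 * ((ν - 1) / 96) < ν ∧
    (ν : ℝ) / 192 ≤ (((ν - 1) / 96 : ℕ) : ℝ) := by
  refine ⟨by omega, ?_⟩
  have h1 := (natdiv_lb (ν - 1) 96 (by norm_num)).le
  have h2 : ((ν - 1 : ℕ) : ℝ) = ν - 1 := by rw [Nat.cast_sub (by omega)]; simp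
  rw [h2] at h1
  push_cast at h1
  have h3 : (200 : ℝ) ≤ ν := by exact_mod_cast hν
  linarith

open Classical in
/-- **first part** -/
theorem part1 (W : ℕ → Prop) (R : ℕ) (hR : 1 ≤ R) (h4 : H4 W R) (hS : HS W) :
    ∃ c : ℝ, 0 < c ∧ ∃ ν0 : ℕ, ∀ ν : ℕ, ν0 ≤ ν → c * (ν : ℝ) ^ 2 ≤ (T3 W ν).card ∨
      ∃ d, 1 ≤ d ∧ d ≤ 3 ∧ ∀ g, g ≤ 9 → 3 * d ∣ ν - g → c * (ν : ℝ) ≤ (T2 W ν g).card := by
  obtain ⟨L1, hL1, hs1⟩ := hS 1 (by norm_num)
  obtain ⟨L2, hL2, hs2⟩ := hS 2 (by norm_num)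
  obtain ⟨L3, hL3, hs3⟩ := hS 3 (by norm_num)
  set Lm := L1 + L2 + L3 with hLm
  have hLm1 : (1 : ℝ) ≤ Lm := by
    have : 1 ≤ Lm := by omega
    exact_mod_cast this
  have hLm0 : (0 : ℝ) < Lm := by linarith
  have hLd : ∀ d, 1 ≤ d → d ≤ 3 → ∃ L, 1 ≤ L ∧ L ≤ Lm ∧
      ∀ x, ∃ k, W (3 * (d * k)) ∧ x < k ∧ k ≤ x + L := by
    intro d hd1 hd3
    interval_cases d
    · exact ⟨L1, hL1, by omega, hs1⟩
    · exact ⟨L2, hL2, by omega, hs2⟩
    · exact ⟨L3, hL3, by omega, hs3⟩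
  obtain ⟨τ, hτ, q0, hdich⟩ := dich W R hR h4 hS (1 / (8 * (Lm : ℝ))) (by positivity)
  set c : ℝ := min (τ / 36864) (1 / (1536 * Lm)) with hc
  have hc0 : 0 < c := lt_min (by positivity) (by positivity)
  refine ⟨c, hc0, 200 + 96 * (q0 + 24 * Lm + 2), fun ν hν => ?_⟩
  obtain ⟨hq1, hq2⟩ := q_bounds (ν := ν) (by omega)
  set q := (ν - 1) / 96 with hq
  have hqq : q0 + 24 * Lm + 1 ≤ q := by
    rw [hq, Nat.le_div_iff_mul_le (by norm_num)]
    omega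
  have hν0 : (0 : ℝ) ≤ ν := Nat.cast_nonneg _
  rcases hdich q ν (by omega) hq1 with h | ⟨d, hd1, hd3, -, hd5⟩
  · left
    have h1 : ((prP (fun k => W (3 * k)) (fun x y => W (ν - 3 * x - 3 * y)) q).card : ℝ) ≤
      (T3 W ν).card := by exact_mod_cast prP_le W hq1
    have h2 : c * (ν : ℝ) ^ 2 ≤ τ * (q : ℝ) ^ 2 := by
      have h3 : ((ν : ℝ) / 192) ^ 2 ≤ (q : ℝ) ^ 2 := pow_le_pow_left₀ (by positivity) hq2 2
      calc c * (ν : ℝ) ^ 2 ≤ (τ / 36864) * (ν : ℝ) ^ 2 :=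
            mul_le_mul_of_nonneg_right (min_le_left _ _) (by positivity)
        _ = τ * ((ν : ℝ) / 192) ^ 2 := by ring
        _ ≤ τ * (q : ℝ) ^ 2 := mul_le_mul_of_nonneg_left h3 hτ.le
    linarith
  · right
    refine ⟨d, hd1, hd3, fun g hg hdvd => ?_⟩
    obtain ⟨L, hL, hLLm, hsyn⟩ := hLd d hd1 hd3
    have h1 := rep_lin hd1 hsyn (by omega) hq1 hg hdvd
    obtain ⟨h2, -⟩ := numb hd1 hd3 hL hLLm (by omega) hd5
    have h3 : (((q / d) / L - ((Icc 1 (q / d)).filter (fun j => ¬ W (3 * (d * j)))).card : ℕ) : ℝ) ≤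
        (T2 W ν g).card := by
      exact_mod_cast (by omega : (q / d) / L -
        ((Icc 1 (q / d)).filter (fun j => ¬ W (3 * (d * j)))).card ≤ (T2 W ν g).card)
    calc c * (ν : ℝ) ≤ (1 / (1536 * Lm)) * (ν : ℝ) :=
          mul_le_mul_of_nonneg_right (min_le_right _ _) hν0
      _ = (ν : ℝ) / 192 / (8 * Lm) := by rw [div_div]; ring
      _ ≤ (q : ℝ) / (8 * Lm) := div_le_div_of_nonneg_right hq2 (by positivity)
      _ ≤ _ := h2
      _ ≤ _ := h3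

open Classical in
/-- **second part** -/
theorem part2 (W : ℕ → Prop) (R : ℕ) (hR : 1 ≤ R) (h4 : H4 W R) (hS : HS W) :
    ∃ c : ℝ, 0 < c ∧ ∃ ν0 : ℕ, ∀ ν : ℕ, ν0 ≤ ν → 6 ∣ ν → c * (ν : ℝ) ^ 2 ≤ (All3 W ν).card := by
  obtain ⟨L1, hL1, hs1⟩ := hS 1 (by norm_num)
  obtain ⟨L2, hL2, hs2⟩ := hS 2 (by norm_num)
  obtain ⟨L3, hL3, hs3⟩ := hS 3 (by norm_num)
  set Lm := L1 + L2 + L3 with hLm
  have hLm1 : (1 : ℝ) ≤ Lm := by
    have : 1 ≤ Lm := by omega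
    exact_mod_cast this
  have hLm0 : (0 : ℝ) < Lm := by linarith
  have hLd : ∀ d, 1 ≤ d → d ≤ 3 → ∃ L, 1 ≤ L ∧ L ≤ Lm ∧
      ∀ x, ∃ k, W (3 * (d * k)) ∧ x < k ∧ k ≤ x + L := by
    intro d hd1 hd3
    interval_cases d
    · exact ⟨L1, hL1, by omega, hs1⟩
    · exact ⟨L2, hL2, by omega, hs2⟩
    · exact ⟨L3, hL3, by omega, hs3⟩
  obtain ⟨ε9, hε9, h9⟩ := mod9 h4 hR
  set δ : ℝ := min (1 / (8 * (Lm : ℝ))) ε9 with hδd
  have hδ : 0 < δ := lt_min (by positivity) hε9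
  obtain ⟨τ, hτ, q0, hdich⟩ := dich W R hR h4 hS δ hδ
  obtain ⟨τ2, hτ2, q2, hbad⟩ := bad_small4 R hR ε9 hε9
  set c : ℝ := min (min (τ / 36864) (τ2 / 36864)) (1 / (36864 * 64 * Lm)) with hc
  have hc0 : 0 < c := lt_min (lt_min (by positivity) (by positivity)) (by positivity)
  refine ⟨c, hc0, 200 + 96 * (q0 + q2 + 72 * R + 24 * Lm + 20), fun ν hν h6 => ?_⟩
  obtain ⟨hq1, hq2⟩ := q_bounds (ν := ν) (by omega)
  set q := (ν - 1) / 96 with hq
  have hqq : q0 + q2 + 72 * R + 24 * Lm + 18 ≤ q := by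
    rw [hq, Nat.le_div_iff_mul_le (by norm_num)]
    omega
  have hν0 : (0 : ℝ) ≤ ν := Nat.cast_nonneg _
  have hsq : ((ν : ℝ) / 192) ^ 2 ≤ (q : ℝ) ^ 2 := pow_le_pow_left₀ (by positivity) hq2 2
  have hT : ((T3 W ν).card : ℝ) ≤ (All3 W ν).card := by exact_mod_cast card_le_card (T3_sub W ν)
  have hcτ : ∀ t : ℝ, 0 < t → c ≤ t / 36864 → c * (ν : ℝ) ^ 2 ≤ t * (q : ℝ) ^ 2 := by
    intro t ht htc
    calc c * (ν : ℝ) ^ 2 ≤ (t / 36864) * (ν : ℝ) ^ 2 :=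
          mul_le_mul_of_nonneg_right htc (by positivity)
      _ = t * ((ν : ℝ) / 192) ^ 2 := by ring
      _ ≤ t * (q : ℝ) ^ 2 := mul_le_mul_of_nonneg_left hsq ht.le
  rcases hdich q ν (by omega) hq1 with h | ⟨d, hd1, hd3, hd4, hd5⟩
  · have h1 : ((prP (fun k => W (3 * k)) (fun x y => W (ν - 3 * x - 3 * y)) q).card : ℝ) ≤
      (T3 W ν).card := by exact_mod_cast prP_le W hq1
    have h2 := hcτ τ hτ ((min_le_left _ _).trans (min_le_left _ _))
    linarith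
  · by_cases hdv : 3 * d ∣ ν
    · obtain ⟨L, hL, hLLm, hsyn⟩ := hLd d hd1 hd3
      set b := ((Icc 1 (q / d)).filter (fun j => ¬ W (3 * (d * j)))).card with hb
      have h1 := rep_quad (b := b) hd1 hsyn hq1 hdv le_rfl
      obtain ⟨h2, h3⟩ := numb (b := b) hd1 hd3 hL hLLm (by omega) (hd5.trans
        (mul_le_mul_of_nonneg_right (min_le_left _ _) (Nat.cast_nonneg _)))
      have h5 : (((q / d - b) * ((q / d) / L - b) : ℕ) : ℝ) ≤ (T3 W ν).card := by exact_mod_cast h1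
      rw [Nat.cast_mul] at h5
      have h6 : (q : ℝ) / 8 * ((q : ℝ) / (8 * Lm)) ≤ ((q / d - b : ℕ) : ℝ) * (((q / d) / L - b : ℕ) : ℝ) :=
        mul_le_mul h3 h2 (by positivity) (Nat.cast_nonneg _)
      have h7 : c * (ν : ℝ) ^ 2 ≤ (q : ℝ) / 8 * ((q : ℝ) / (8 * Lm)) := by
        calc c * (ν : ℝ) ^ 2 ≤ (1 / (36864 * 64 * Lm)) * (ν : ℝ) ^ 2 :=
              mul_le_mul_of_nonneg_right (min_le_right _ _) (by positivity)
          _ = (1 / (64 * Lm)) * ((ν : ℝ) / 192) ^ 2 := by field_simp; ring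
          _ ≤ (1 / (64 * Lm)) * (q : ℝ) ^ 2 := mul_le_mul_of_nonneg_left hsq (by positivity)
          _ = _ := by field_simp; ring
      linarith
    · have hd3' : d = 3 := by
        rcases (by omega : d = 1 ∨ d = 2 ∨ d = 3) with rfl | rfl | rfl
        · exact absurd ((by norm_num : 3 * 1 ∣ 6).trans h6) hdv
        · exact absurd ((by norm_num : 3 * 2 ∣ 6).trans h6) hdv
        · rfl
      subst hd3'
      by_cases hp : ((prP (S3 W) (fun x y => W (ν - x - y)) q).card : ℝ) ≤ τ2 * q ^ 2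
      · exfalso
        have h1 := hbad q (by omega) (S3 W) W (fun x y => W (ν - x - y))
          (mirror2 h4 hq1 ((by norm_num : 3 ∣ 6).trans h6)) hp
        refine h9 q (by omega) h1 ?_
        have h2 : ((E9 W q).card : ℝ) ≤ δ * q := hd4
        exact h2.trans (mul_le_mul_of_nonneg_right (min_le_right _ _) (Nat.cast_nonneg _))
      · push Not at hp
        have h1 : ((prP (S3 W) (fun x y => W (ν - x - y)) q).card : ℝ) ≤ (All3 W ν).card := by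
          exact_mod_cast prP_le2 W hq1
        have h2 := hcτ τ2 hτ2 ((min_le_left _ _).trans (min_le_right _ _))
        linarith

end Pool.Agent.Q178.TG
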