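import Mathlib
import Pool.Agent.W150.UBC1a
import Pool.Agent.W25.UB.Final
import Pool.Agent.Q178.TG.Core3

/-! Sums of three prime gaps: the coloured Maynard-Tao theorem with four classes (helper178). -/

set_option autoImplicit false

namespace Pool.Agent.Q178.TG

open Finset Filter
open Pool.Agent.H947R3.GM (AdmN)
open Pool.Agent.W59.GB (GapB)

/-- `2 k` is a gap between consecutive primes for at least `x ^ (1 - η)` primes up to `x` -/
def W (k : ℕ) : Prop := k ∈ GapB 2 1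

/-- copied from the starting file `TH899.UG.EC2` -/
theorem avoid4 (p : ℕ) (hp : p.Prime) (hp5 : 5 ≤ p) (l : Fin 4 → ℤ) :
    ∃ n : ℤ, ∀ i, ¬ ((p : ℤ) ∣ n + l i) := by
  classical
  haveI := Fact.mk hp
  let f : Fin 4 → ZMod p := fun i => ((-(l i) : ℤ) : ZMod p)
  have hcard : (univ.image f).card < (univ : Finset (ZMod p)).card := by
    rw [card_univ, ZMod.card]
    have h2 : (univ.image f).card ≤ 4 := by
      refine card_image_le.trans ?_
      rw [card_univ, Fintype.card_fin]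
    omega
  obtain ⟨w, -, hw⟩ := Finset.exists_mem_notMem_of_card_lt_card hcard
  refine ⟨(w.val : ℤ), fun i hd => hw (mem_image.2 ⟨i, mem_univ _, ?_⟩)⟩
  rw [← ZMod.intCast_zmod_eq_zero_iff_dvd] at hd
  push_cast at hd
  rw [ZMod.natCast_zmod_val] at hd
  show ((-(l i) : ℤ) : ZMod p) = w
  push_cast
  linear_combination -hd

/-- copied from the starting file `TH899.UG.EC1` -/
theorem adm_of {N K : ℕ} (H : Fin 4 → Fin K → ℕ)
    (hinj : Function.Injective (fun x : Fin 4 × Fin K => H x.1 x.2))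
    (hloc : ∀ p : ℕ, p.Prime → ¬ p ∣ N → p ≤ 4 * K → ∃ n : ℤ, ∀ g i, ¬ ((p : ℤ) ∣ n + H g i)) :
    AdmN N H := by
  classical
  refine ⟨hinj, fun p hp hpN => ?_⟩
  by_cases hpn : p ≤ 4 * K
  · exact hloc p hp hpN hpn
  · haveI := Fact.mk hp
    let f : Fin 4 × Fin K → ZMod p := fun x => - ((H x.1 x.2 : ℤ) : ZMod p)
    have hcard : (univ.image f).card < (univ : Finset (ZMod p)).card := by
      rw [card_univ, ZMod.card]
      have h2 : (univ.image f).card ≤ 4 * K := by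
        refine card_image_le.trans ?_
        rw [card_univ, Fintype.card_prod, Fintype.card_fin, Fintype.card_fin]
      omega
    obtain ⟨w, -, hw⟩ := Finset.exists_mem_notMem_of_card_lt_card hcard
    refine ⟨(w.val : ℤ), fun g i hd => hw (mem_image.2 ⟨(g, i), mem_univ _, ?_⟩)⟩
    rw [← ZMod.intCast_zmod_eq_zero_iff_dvd] at hd
    push_cast at hd
    rw [ZMod.natCast_zmod_val] at hd
    show - ((H g i : ℤ) : ZMod p) = w
    push_cast
    linear_combination -hd

theorem avoid2 (v w : ℕ) : ∃ n : ℤ, ∀ x : ℕ, x % 3 = v ∨ x % 3 = w → ¬ ((3 : ℤ) ∣ n + x) := by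
  have key : ∃ n : ℤ, (n = 0 ∨ n = 1 ∨ n = 2) ∧ ¬ ((3 : ℤ) ∣ n + v) ∧ ¬ ((3 : ℤ) ∣ n + w) := by
    by_contra hcon
    push Not at hcon
    have c0 := hcon 0 (Or.inl rfl)
    have c1 := hcon 1 (Or.inr (Or.inl rfl))
    have c2 := hcon 2 (Or.inr (Or.inr rfl))
    omega
  obtain ⟨n, -, h1, h2⟩ := key
  refine ⟨n, fun x hx h => ?_⟩
  rcases hx with hx | hx
  · apply h1
    omega
  · apply h2
    omega

theorem sub_class (Q K : ℕ) (hQ : 0 < Q) (x : Fin (Q * K) → ℕ) :
    ∃ e : Fin K → Fin (Q * K), Function.Injective e ∧ ∀ i j, x (e i) % Q = x (e j) % Q := by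
  classical
  obtain ⟨r, -, hr⟩ := exists_le_card_fiber_of_mul_le_card_of_maps_to
    (s := (univ : Finset (Fin (Q * K)))) (t := range Q) (f := fun i => x i % Q) (n := K)
    (fun i _ => mem_range.2 (Nat.mod_lt _ hQ)) ⟨0, mem_range.2 hQ⟩ (by simp)
  obtain ⟨S, h1, h2⟩ := exists_subset_card_eq hr
  refine ⟨S.orderEmbOfFin h2, (S.orderEmbOfFin h2).injective, fun i j => ?_⟩
  have h3 := (mem_filter.1 (h1 (orderEmbOfFin_mem S h2 i))).2
  have h4 := (mem_filter.1 (h1 (orderEmbOfFin_mem S h2 j))).2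
  exact h3.trans h4.symm

/-- **four classes** -/
theorem four_class : ∃ R : ℕ, 1 ≤ R ∧ ∀ X : Fin 4 → Fin R → ℕ,
    Function.Injective (fun x : Fin 4 × Fin R => X x.1 x.2) →
    (∃ c c' : ℕ, ∀ g i, X g i % 3 = c ∨ X g i % 3 = c') →
    ∃ g g' i i', g ≠ g' ∧ X g i < X g' i' ∧ W (X g' i' - X g i) := by
  obtain ⟨K, hK, HC⟩ := Pool.Agent.W150.UBC1a.main Pool.Agent.W25.UB.thmV 2 1 (by norm_num)
    dvd_rfl (by
      rw [Nat.squarefree_iff_prime_squarefree]
      intro p hp h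
      have h1 := Nat.le_of_dvd (by norm_num) h
      have h2 := hp.two_le
      nlinarith) (by norm_num)
  set Q := (4 * K).factorial with hQ
  have hQ0 : 0 < Q := Nat.factorial_pos _
  refine ⟨Q * K, Nat.mul_pos hQ0 hK, ?_⟩
  rintro X hX ⟨c, c', hc⟩
  choose e he1 he2 using fun g => sub_class Q K hQ0 (X g)
  have hadm : AdmN 2 (fun g i => X g (e g i)) := by
    apply adm_of
    · rintro ⟨g, i⟩ ⟨g', i'⟩ h
      have h1 : X g (e g i) = X g' (e g' i') := h
      have h2 := @hX (g, e g i) (g', e g' i') h1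
      rw [Prod.mk.injEq] at h2
      obtain ⟨h3, h4⟩ := h2
      subst h3
      rw [he1 g h4]
    · intro p hp hp2 hpK
      by_cases hp3 : p = 3
      · subst hp3
        obtain ⟨n, hn⟩ := avoid2 c c'
        exact ⟨n, fun g i => hn _ (hc g (e g i))⟩
      · have hp5 : 5 ≤ p := by
          have h4 := hp.two_le
          have h5 : p ≠ 4 := by rintro rfl; exact absurd hp (by norm_num)
          have h6 : p ≠ 2 := by rintro rfl; exact hp2 dvd_rfl
          omega
        have i0 : Fin K := ⟨0, hK⟩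
        obtain ⟨n, hn⟩ := avoid4 p hp hp5 (fun g => (X g (e g i0) : ℤ))
        refine ⟨n, fun g i h => hn g ?_⟩
        have hpQ : (p : ℤ) ∣ Q := by exact_mod_cast hp.dvd_factorial.2 hpK
        have h1 : (Q : ℤ) ∣ (X g (e g i) : ℤ) - X g (e g i0) := by
          have h2 : X g (e g i0) ≡ X g (e g i) [MOD Q] := he2 g i0 i
          exact (Nat.modEq_iff_dvd.1 h2)
        have e1 : n + (X g (e g i0) : ℤ) = (n + (X g (e g i) : ℤ)) -
            ((X g (e g i) : ℤ) - X g (e g i0)) := by ring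
        rw [e1]
        exact dvd_sub h (hpQ.trans h1)
  obtain ⟨g, g', i, i', h1, h2, h3⟩ := HC _ hadm
  exact ⟨g, g', e g i, e g' i', h1, h2, h3⟩

/-- clusters for a set that is not syndetic -/
theorem clusters (D : ℕ → Prop) (R : ℕ)
    (h : ∀ L : ℕ, ∃ x, ∀ k, x < k → k ≤ x + L → ¬ D k) (t : ℕ) :
    ∃ y : ℕ → ℕ, ∀ i j, i < j → j < t → ∀ u < R, ∀ v < R,
      y i + u < y j + v ∧ ¬ D ((y j + v) - (y i + u)) := by
  induction t with
  | zero => exact ⟨fun _ => 0, fun i j _ h2 => by omega⟩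
  | succ t ih =>
    obtain ⟨y, hy⟩ := ih
    obtain ⟨B, hB⟩ : ∃ B, ∀ i < t, y i + R ≤ B :=
      ⟨(range t).sup fun i => y i + R, fun i hi =>
        le_sup (f := fun i => y i + R) (mem_range.2 hi)⟩
    obtain ⟨x, hx⟩ := h (B + R + 1)
    refine ⟨fun i => if i = t then x + B + 1 else y i, ?_⟩
    intro i j hij hj u hu v hv
    have hi : i ≠ t := by omega
    by_cases hjt : j = t
    · subst hjt
      have h1 := hB i hij
      simp only [if_neg hi, if_true]
      refine ⟨by omega, hx _ (by omega) (by omega)⟩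
    · simp only [if_neg hi, if_neg hjt]
      exact hy i j hij (by omega) u hu v hv

/-- the multiples are syndetic -/
theorem syndW (d : ℕ) (hd : 1 ≤ d) : ∃ L : ℕ, 1 ≤ L ∧ ∀ x, ∃ k, W (3 * (d * k)) ∧ x < k ∧ k ≤ x + L := by
  obtain ⟨R, hR, H⟩ := four_class
  by_contra hcon
  push Not at hcon
  have h1 : ∀ L : ℕ, ∃ x, ∀ k, x < k → k ≤ x + L → ¬ W (3 * (d * k)) := by
    intro L
    obtain ⟨x, hx⟩ := hcon (L + 1) (by omega)
    refine ⟨x, fun k hk1 hk2 hk3 => ?_⟩
    have := hx k hk3 hk1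
    omega
  obtain ⟨y, hy⟩ := clusters (fun k => W (3 * (d * k))) R h1 4
  have hlt : ∀ g g' : Fin 4, g < g' → ∀ i i' : Fin R, y g + i < y g' + i' :=
    fun g g' hg i i' => (hy g g' hg g'.isLt i i.isLt i' i'.isLt).1
  have hd3 : 0 < 3 * d := by omega
  obtain ⟨g, g', i, i', h2, h3, h4⟩ := H (fun g i => 3 * (d * (y g + i))) (by
    rintro ⟨g, i⟩ ⟨g', i'⟩ h
    have h5 : 3 * (d * (y g + i)) = 3 * (d * (y g' + i')) := h
    have h6 : y g + i = y g' + i' := by
      have h7 : d * (y g + i) = d * (y g' + i') := by omega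
      exact Nat.eq_of_mul_eq_mul_left hd h7
    rcases lt_trichotomy g g' with h7 | h7 | h7
    · have := hlt g g' h7 i i'
      omega
    · subst h7
      have : (i : ℕ) = i' := by omega
      rw [Fin.ext this]
    · have := hlt g' g h7 i' i
      omega) ⟨0, 0, fun g i => Or.inl (Nat.mul_mod_right _ _)⟩
  have h5 : y g + i < y g' + i' := by
    have h6 : d * (y g + i) < d * (y g' + i') := by omega
    exact Nat.lt_of_mul_lt_mul_left h6
  rcases lt_or_gt_of_ne h2 with h6 | h6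
  · apply (hy g g' h6 g'.isLt i i.isLt i' i'.isLt).2
    have e : 3 * (d * (y g' + i' - (y g + i))) = 3 * (d * (y g' + i')) - 3 * (d * (y g + i)) := by
      rw [Nat.mul_sub, Nat.mul_sub]
    show W (3 * (d * (y g' + i' - (y g + i))))
    rw [e]
    exact h4
  · have := hlt g' g h6 i' i
    omega

/-- the multiples of six -/
def V (k : ℕ) : Prop := W (3 * k)

theorem four_V : ∃ R : ℕ, 1 ≤ R ∧ Four V R ∧ ∀ X : Fin 4 → Fin R → ℕ,
    Function.Injective (fun x : Fin 4 × Fin R => X x.1 x.2) →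
    (∃ c c' : ℕ, ∀ g i, X g i % 3 = c ∨ X g i % 3 = c') →
    ∃ g g' i i', g ≠ g' ∧ X g i < X g' i' ∧ W (X g' i' - X g i) := by
  obtain ⟨R, hR, H⟩ := four_class
  refine ⟨R, hR, ?_, H⟩
  intro X hX
  obtain ⟨g, g', i, i', h2, h3, h4⟩ := H (fun g i => 3 * X g i) (by
    intro z z' h
    have h5 : 3 * X z.1 z.2 = 3 * X z'.1 z'.2 := h
    exact hX (by show X z.1 z.2 = X z'.1 z'.2; omega))
    ⟨0, 0, fun g i => Or.inl (Nat.mul_mod_right _ _)⟩
  refine ⟨g, g', i, i', h2, by omega, ?_⟩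
  show W (3 * (X g' i' - X g i))
  rw [Nat.mul_sub]
  exact h4

end Pool.Agent.Q178.TG
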